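import Pool.Agent.Work.MP_bcc032_al.PI.Stmts

set_option autoImplicit false

namespace Pool.Agent.Work.MP_bcc032_al.PI

open Polynomial

noncomputable section

namespace AuxAct

variable {A : Type} [CommRing A]

theorem tau2_smul (α β : A) (a : A) (t : LA A α β) :
    tau2 A α β (a • t) = a • tau2 A α β t := by
  have hP : ∀ P : (SA A α)[X], (a • P).comp (-X) = a • P.comp (-X) := fun P => smul_comp _ _ _
  ext1
  · rw [tau2_re]
    exact hP t.re
  · rw [tau2_im]
    show -((a • t.im).comp (-X)) = a • (-(t.im.comp (-X)))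
    rw [hP, smul_neg]

theorem Phi_i (α β : A) (s : LA A α β) :
    Phi A α β (FreeAlgebra.ι A (0 : Fin 4)) s = gi A α β * s := by
  simp [Phi]

theorem Phi_v (α β : A) (s : LA A α β) :
    Phi A α β (FreeAlgebra.ι A (1 : Fin 4)) s = gv A α β * s := by
  simp [Phi]

theorem Phi_j (α β : A) (s : LA A α β) :
    Phi A α β (FreeAlgebra.ι A (2 : Fin 4)) s = gj A α β * tau1 A α β s := by
  simp [Phi, tau1l]

theorem Phi_w (α β : A) (s : LA A α β) :
    Phi A α β (FreeAlgebra.ι A (3 : Fin 4)) s = gw A α β * tau1 A α β s := by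
  simp [Phi, tau1l]

theorem key (α β : A) (p : FreeAlgebra A (Fin 4)) : ∀ c s : LA A α β,
    Phi A α β p (st (tau1 A α β) (tau2 A α β) c s) =
      st (tau1 A α β) (tau2 A α β) (Phi A α β p c) s := by
  induction p using FreeAlgebra.induction with
  | grade0 a =>
    intro c s
    have h1 : ∀ x : LA A α β, Phi A α β (algebraMap A _ a) x = a • x := by
      intro x
      rw [AlgHom.commutes]
      rfl
    rw [h1, h1]
    simp only [st, tau2_smul]
    have h2 : a • c - a • (tau2 A α β) c = a • (c - tau2 A α β c) := (smul_sub a _ _).symm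
    rw [← smul_add, h2, smul_mul_assoc, smul_mul_assoc, ← smul_add, ← smul_neg]
  | grade1 x =>
    intro c s
    fin_cases x
    · show Phi A α β (FreeAlgebra.ι A (0 : Fin 4)) _ = st _ _ (Phi A α β (FreeAlgebra.ι A (0 : Fin 4)) _) _
      rw [Phi_i, Phi_i]
      simp only [st, map_mul, tau2_gi]
      ring
    · show Phi A α β (FreeAlgebra.ι A (1 : Fin 4)) _ = st _ _ (Phi A α β (FreeAlgebra.ι A (1 : Fin 4)) _) _
      rw [Phi_v, Phi_v]
      simp only [st, map_mul, tau2_gv]
      ring
    · show Phi A α β (FreeAlgebra.ι A (2 : Fin 4)) _ = st _ _ (Phi A α β (FreeAlgebra.ι A (2 : Fin 4)) _) _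
      rw [Phi_j, Phi_j]
      simp only [st, map_mul, map_neg, map_add, map_sub, tau2_gj, tau1_tau1, tau1_tau2]
      ring
    · show Phi A α β (FreeAlgebra.ι A (3 : Fin 4)) _ = st _ _ (Phi A α β (FreeAlgebra.ι A (3 : Fin 4)) _) _
      rw [Phi_w, Phi_w]
      simp only [st, map_mul, map_neg, map_add, map_sub, tau2_gw, tau1_tau1, tau1_tau2]
      ring
  | mul a b iha ihb =>
    intro c s
    rw [map_mul]
    show Phi A α β a (Phi A α β b _) = st _ _ (Phi A α β a (Phi A α β b c)) s
    rw [ihb, iha]
  | add a b iha ihb =>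
    intro c s
    rw [map_add]
    show Phi A α β a _ + Phi A α β b _ = st _ _ (Phi A α β a c + Phi A α β b c) s
    rw [iha, ihb]
    simp only [st, map_add]
    ring

end AuxAct

theorem pr_Act : S_Act := by
  intro A _ h3 α β p s
  have h3L : (3 : LA A α β) = 0 := three_LA h3 α β
  have h1 : st (tau1 A α β) (tau2 A α β) 1 s = s := by
    simp only [st, map_one, sub_self, zero_mul, add_zero]
    linear_combination (-s) * h3L
  have h := AuxAct.key α β p 1 s
  rw [h1] at h
  exact h

end

end Pool.Agent.Work.MP_bcc032_al.PI
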