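import Pool.Agent.Work.MP_bcc032_al.PI.Stmts

set_option autoImplicit false

namespace Pool.Agent.Work.MP_bcc032_al.PI

open Polynomial

noncomputable section

namespace AuxBox

variable {A : Type} [CommRing A]

theorem mulz {R : Type} [CommRing R] (p q : R[X]) (d n : ℕ) (hp : ∀ i, d < i → p.coeff i = 0)
    (hq : ∀ j, n ≤ j → q.coeff j = 0) : ∀ a, n + d ≤ a → (p * q).coeff a = 0 := by
  intro a ha
  rw [coeff_mul]
  apply Finset.sum_eq_zero
  rintro ⟨i, j⟩ hij
  rw [Finset.HasAntidiagonal.mem_antidiagonal] at hij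
  by_cases h : d < i
  · rw [hp i h, zero_mul]
  · rw [hq j (by simp only at hij; omega), mul_zero]

theorem compz {R : Type} [CommRing R] (q : R[X]) (n : ℕ) : (q.comp (-X)).coeff n =
    q.coeff n * (-1) ^ n := by
  have h : (-X : R[X]) = C (-1) * X := by simp
  rw [h, comp_C_mul_X_coeff]

/-- box in `SA` -/
def BS (n : ℕ) {α : A} (s : SA A α) : Prop := ∀ a, n ≤ a → s.re.coeff a = 0 ∧ s.im.coeff a = 0

theorem BS_mono {n n' : ℕ} (h : n ≤ n') {α : A} {s : SA A α} (hs : BS n s) : BS n' s :=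
  fun a ha => hs a (h.trans ha)

theorem BS_zero (n : ℕ) (α : A) : BS n (0 : SA A α) := fun a _ => by simp

theorem BS_add {n : ℕ} {α : A} {s t : SA A α} (hs : BS n s) (ht : BS n t) : BS n (s + t) := by
  intro a ha
  simp [(hs a ha).1, (hs a ha).2, (ht a ha).1, (ht a ha).2]

theorem BS_alg {n : ℕ} {α : A} (r : A) {s : SA A α} (hs : BS n s) :
    BS n (algebraMap A (SA A α) r * s) := by
  intro a ha
  have h1 : algebraMap A (SA A α) r = ⟨C r, 0⟩ := rfl
  rw [h1]
  constructor
  · rw [QuadraticAlgebra.re_mul]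
    simp [(hs a ha).1]
  · rw [QuadraticAlgebra.im_mul]
    simp [(hs a ha).2]

theorem BS_tau {n : ℕ} {α : A} {s : SA A α} (hs : BS n s) : BS n (tauS A α s) := by
  intro a ha
  rw [tauS_re, tauS_im, coeff_neg, compz, compz, (hs a ha).1, (hs a ha).2]
  simp

theorem BS_i {n : ℕ} {α : A} {s : SA A α} (hs : BS n s) : BS (n + 1) ((⟨X, 0⟩ : SA A α) * s) := by
  have hX : ∀ i, 1 < i → (X : A[X]).coeff i = 0 := by
    intro i hi
    rw [coeff_X, if_neg (by omega)]
  intro a ha
  constructor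
  · rw [QuadraticAlgebra.re_mul]
    simp only [mul_zero, zero_mul, add_zero]
    exact mulz _ _ 1 n hX (fun j hj => (hs j hj).1) a ha
  · rw [QuadraticAlgebra.im_mul]
    simp only [mul_zero, zero_mul, add_zero]
    exact mulz _ _ 1 n hX (fun j hj => (hs j hj).2) a ha

theorem fS_coeff (α : A) : ∀ i, 4 < i → (fS A α).coeff i = 0 := by
  intro i hi
  have h1 : fS A α = X ^ 4 - C 2 * X ^ 2 + C (1 - α) := by
    simp only [fS, map_sub, map_one]
    rw [show (C (2 : A)) = 2 from map_ofNat C 2]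
    ring
  rw [h1, coeff_add, coeff_sub, coeff_X_pow, coeff_C_mul, coeff_X_pow, coeff_C, if_neg (by omega),
    if_neg (by omega), if_neg (by omega)]
  simp

theorem BS_v {n : ℕ} {α : A} {s : SA A α} (hs : BS n s) : BS (n + 4) ((⟨0, 1⟩ : SA A α) * s) := by
  intro a ha
  constructor
  · rw [QuadraticAlgebra.re_mul]
    simp only [mul_one, zero_mul, zero_add]
    exact mulz _ _ 4 n (fS_coeff α) (fun j hj => (hs j hj).2) a ha
  · rw [QuadraticAlgebra.im_mul]
    simp only [one_mul, zero_mul, zero_add, add_zero]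
    exact (hs a (by omega)).1

/-- box for polynomials over `SA` -/
def BP (n : ℕ) {α : A} (P : (SA A α)[X]) : Prop :=
  (∀ m, n ≤ m → P.coeff m = 0) ∧ ∀ m, BS n (P.coeff m)

theorem BP_mono {n n' : ℕ} (h : n ≤ n') {α : A} {P : (SA A α)[X]} (hP : BP n P) : BP n' P :=
  ⟨fun m hm => hP.1 m (h.trans hm), fun m => BS_mono h (hP.2 m)⟩

theorem BP_zero (n : ℕ) (α : A) : BP n (0 : (SA A α)[X]) :=
  ⟨fun _ _ => coeff_zero _, fun _ => by rw [coeff_zero]; exact BS_zero _ _⟩

theorem BP_add {n : ℕ} {α : A} {P Q : (SA A α)[X]} (hP : BP n P) (hQ : BP n Q) : BP n (P + Q) :=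
  ⟨fun m hm => by rw [coeff_add, hP.1 m hm, hQ.1 m hm, add_zero],
    fun m => by rw [coeff_add]; exact BS_add (hP.2 m) (hQ.2 m)⟩

theorem BP_alg {n : ℕ} {α : A} (r : A) {P : (SA A α)[X]} (hP : BP n P) :
    BP n (C (algebraMap A (SA A α) r) * P) :=
  ⟨fun m hm => by rw [coeff_C_mul, hP.1 m hm, mul_zero],
    fun m => by rw [coeff_C_mul]; exact BS_alg r (hP.2 m)⟩

theorem BP_i {n : ℕ} {α : A} {P : (SA A α)[X]} (hP : BP n P) :
    BP (n + 1) (C (⟨X, 0⟩ : SA A α) * P) :=
  ⟨fun m hm => by rw [coeff_C_mul, hP.1 m (by omega), mul_zero],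
    fun m => by rw [coeff_C_mul]; exact BS_i (hP.2 m)⟩

theorem BP_v {n : ℕ} {α : A} {P : (SA A α)[X]} (hP : BP n P) :
    BP (n + 4) (C (⟨0, 1⟩ : SA A α) * P) :=
  ⟨fun m hm => by rw [coeff_C_mul, hP.1 m (by omega), mul_zero],
    fun m => by rw [coeff_C_mul]; exact BS_v (hP.2 m)⟩

theorem BP_tau {n : ℕ} {α : A} {P : (SA A α)[X]} (hP : BP n P) : BP n (P.map (tauS A α)) :=
  ⟨fun m hm => by rw [coeff_map, hP.1 m hm, map_zero],
    fun m => by rw [coeff_map]; exact BS_tau (hP.2 m)⟩

theorem BP_Xpow {n : ℕ} {α : A} (k : ℕ) {P : (SA A α)[X]} (hP : BP n P) :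
    BP (n + k) (X ^ k * P) := by
  constructor
  · intro m hm
    rw [coeff_X_pow_mul']
    split_ifs with h
    · exact hP.1 _ (by omega)
    · rfl
  · intro m
    rw [coeff_X_pow_mul']
    split_ifs with h
    · exact BS_mono (by omega) (hP.2 _)
    · exact BS_zero _ _

theorem BP_w {n : ℕ} {α β : A} {P : (SA A α)[X]} (hP : BP n P) : BP (n + 4) (gS A α β * P) := by
  rw [gS, add_mul, add_mul]
  refine BP_add (BP_add (BP_Xpow 4 hP) ?_) ?_
  · exact BP_mono (by omega) (BP_Xpow 2 hP)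
  · exact BP_mono (by omega) (BP_alg β hP)

/-- box in `LA` -/
def BL (n : ℕ) {α β : A} (t : LA A α β) : Prop := BP n t.re ∧ BP n t.im

theorem BL_mono {n n' : ℕ} (h : n ≤ n') {α β : A} {t : LA A α β} (ht : BL n t) : BL n' t :=
  ⟨BP_mono h ht.1, BP_mono h ht.2⟩

theorem BL_zero (n : ℕ) (α β : A) : BL n (0 : LA A α β) :=
  ⟨by simpa using BP_zero n α, by simpa using BP_zero n α⟩

theorem BL_add {n : ℕ} {α β : A} {t s : LA A α β} (ht : BL n t) (hs : BL n s) : BL n (t + s) :=
  ⟨by simpa using BP_add ht.1 hs.1, by simpa using BP_add ht.2 hs.2⟩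

theorem BL_smul {n : ℕ} {α β : A} (r : A) {t : LA A α β} (ht : BL n t) : BL n (r • t) := by
  have h : r • t = algebraMap A (LA A α β) r * t := Algebra.smul_def r t
  have e : algebraMap A (LA A α β) r = ⟨C (algebraMap A (SA A α) r), 0⟩ := rfl
  rw [h, e]
  constructor
  · rw [QuadraticAlgebra.re_mul]
    simp only [mul_zero, zero_mul, add_zero]
    exact BP_alg r ht.1
  · rw [QuadraticAlgebra.im_mul]
    simp only [mul_zero, zero_mul, add_zero]
    exact BP_alg r ht.2

theorem BL_tau {n : ℕ} {α β : A} {t : LA A α β} (ht : BL n t) : BL n (tau1 A α β t) :=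
  ⟨by rw [tau1_re]; exact BP_tau ht.1, by rw [tau1_im]; exact BP_tau ht.2⟩

theorem BL_gi {n : ℕ} {α β : A} {t : LA A α β} (ht : BL n t) : BL (n + 4) (gi A α β * t) := by
  rw [gi]
  constructor
  · rw [QuadraticAlgebra.re_mul]
    simp only [mul_zero, zero_mul, add_zero]
    exact BP_mono (by omega) (BP_i ht.1)
  · rw [QuadraticAlgebra.im_mul]
    simp only [mul_zero, zero_mul, add_zero]
    exact BP_mono (by omega) (BP_i ht.2)

theorem BL_gv {n : ℕ} {α β : A} {t : LA A α β} (ht : BL n t) : BL (n + 4) (gv A α β * t) := by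
  rw [gv]
  constructor
  · rw [QuadraticAlgebra.re_mul]
    simp only [mul_zero, zero_mul, add_zero]
    exact BP_v ht.1
  · rw [QuadraticAlgebra.im_mul]
    simp only [mul_zero, zero_mul, add_zero]
    exact BP_v ht.2

theorem BL_gj {n : ℕ} {α β : A} {t : LA A α β} (ht : BL n t) : BL (n + 4) (gj A α β * t) := by
  rw [gj]
  constructor
  · rw [QuadraticAlgebra.re_mul]
    simp only [mul_zero, zero_mul, add_zero]
    have := BP_Xpow 1 ht.1
    rw [pow_one] at this
    exact BP_mono (by omega) this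
  · rw [QuadraticAlgebra.im_mul]
    simp only [mul_zero, zero_mul, add_zero]
    have := BP_Xpow 1 ht.2
    rw [pow_one] at this
    exact BP_mono (by omega) this

theorem BL_gw {n : ℕ} {α β : A} {t : LA A α β} (ht : BL n t) : BL (n + 4) (gw A α β * t) := by
  rw [gw]
  constructor
  · rw [QuadraticAlgebra.re_mul]
    simp only [mul_one, zero_mul, zero_add]
    exact BP_w ht.2
  · rw [QuadraticAlgebra.im_mul]
    simp only [one_mul, zero_mul, zero_add, add_zero]
    exact BP_mono (by omega) ht.1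

theorem BL_gen {n : ℕ} {α β : A} (g : Fin 4) {t : LA A α β} (ht : BL n t) :
    BL (n + 4) (Phi A α β (FreeAlgebra.ι A g) t) := by
  have h : Phi A α β (FreeAlgebra.ι A g) =
      (![LinearMap.mulLeft A (gi A α β), LinearMap.mulLeft A (gv A α β),
        (LinearMap.mulLeft A (gj A α β)).comp (tau1l A α β),
        (LinearMap.mulLeft A (gw A α β)).comp (tau1l A α β)] : Fin 4 → Module.End A (LA A α β)) g := by
    rw [Phi, FreeAlgebra.lift_ι_apply]
  rw [h]
  fin_cases g
  · exact BL_gi ht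
  · exact BL_gv ht
  · exact BL_gj (BL_tau ht)
  · exact BL_gw (BL_tau ht)

theorem BL_one (α β : A) : BL 1 (1 : LA A α β) := by
  have h1 : (1 : LA A α β).re = 1 := rfl
  have h2 : (1 : LA A α β).im = 0 := rfl
  constructor
  · rw [h1]
    constructor
    · intro m hm
      rw [coeff_one, if_neg (by omega)]
    · intro m a ha
      have h3 : (1 : SA A α).re = 1 := rfl
      have h4 : (1 : SA A α).im = 0 := rfl
      rw [coeff_one]
      split_ifs
      · rw [h3, h4, coeff_one, if_neg (by omega), coeff_zero]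
        exact ⟨rfl, rfl⟩
      · exact BS_zero 1 α a ha
  · rw [h2]
    exact BP_zero 1 α

theorem BL_word (α β : A) : ∀ l : List (Fin 4),
    BL (4 * l.length + 1) (Phi A α β ((l.map (FreeAlgebra.ι A)).prod) 1)
  | [] => by
    simp only [List.map_nil, List.prod_nil, map_one, List.length_nil, Module.End.one_apply]
    exact BL_one α β
  | g :: l => by
    have h := BL_gen g (BL_word α β l)
    simp only [List.map_cons, List.prod_cons, map_mul, List.length_cons, Module.End.mul_apply]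
    exact BL_mono (by omega) h

theorem BL_low (α β : A) (N : ℕ) (p : FreeAlgebra A (Fin 4)) (hp : p ∈ lowdeg A 4 N) :
    BL (4 * N + 1) (cc A α β p) := by
  induction hp using Submodule.span_induction with
  | mem x hx =>
    obtain ⟨w, hw, rfl⟩ := hx
    refine BL_mono ?_ (BL_word α β w.toList)
    have : w.toList.length = w.length := rfl
    omega
  | zero =>
    have h : cc A α β 0 = 0 := by simp [cc]
    rw [h]
    exact BL_zero _ _ _
  | add x y _ _ hx hy =>
    have h : cc A α β (x + y) = cc A α β x + cc A α β y := by simp [cc]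
    rw [h]
    exact BL_add hx hy
  | smul r x _ hx =>
    have h : cc A α β (r • x) = r • cc A α β x := by simp [cc]
    rw [h]
    exact BL_smul r hx

theorem BL_co {n : ℕ} {α β : A} {t : LA A α β} (ht : BL n t) (x : Bool × ℕ × Bool × ℕ)
    (hx : ¬ (x.2.1 < n ∧ x.2.2.2 < n)) : co A α β t x = 0 := by
  obtain ⟨e, m, d, a⟩ := x
  simp only at hx
  by_cases hm : m < n
  · have ha : n ≤ a := by
      by_contra h
      exact hx ⟨hm, by omega⟩
    rcases e <;> rcases d
    · exact (ht.1.2 m a ha).1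
    · exact (ht.1.2 m a ha).2
    · exact (ht.2.2 m a ha).1
    · exact (ht.2.2 m a ha).2
  · have h1 := ht.1.1 m (by omega)
    have h2 := ht.2.1 m (by omega)
    rcases e <;> rcases d <;> simp [co, h1, h2]

end AuxBox

theorem pr_Box : S_Box := by
  intro A _ α β N p hp
  have ht := AuxBox.BL_low α β N p hp
  refine ⟨fun x => co A α β (cc A α β p) (x.1, (x.2.1 : ℕ), x.2.2.1, (x.2.2.2 : ℕ)), ?_⟩
  apply co_ext
  intro x
  rw [co_Ev]
  split_ifs with h
  · rfl
  · exact (AuxBox.BL_co ht x h).symm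

end

end Pool.Agent.Work.MP_bcc032_al.PI
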