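import Pool.Agent.Work.MP_bcc032_al.PI.Stmts

/-!
# Project PI, item Deg: the degrees of the relations
-/

set_option autoImplicit false

namespace Pool.Agent.Work.MP_bcc032_al.PI

namespace AuxDeg

variable (A : Type) [CommRing A]

lemma word (l : List (Fin 4)) (hl : l.length < 5) :
    (l.map (FreeAlgebra.ι A)).prod ∈ lowdeg A 4 5 :=
  Submodule.subset_span ⟨FreeMonoid.ofList l, hl, rfl⟩

lemma w2 (a b : Fin 4) : FreeAlgebra.ι A a * FreeAlgebra.ι A b ∈ lowdeg A 4 5 := by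
  have h := word A [a, b] (by simp)
  simpa using h

lemma pw (a : Fin 4) (n : ℕ) (hn : n < 5) : FreeAlgebra.ι A a ^ n ∈ lowdeg A 4 5 := by
  have h := word A (List.replicate n a) (by simpa using hn)
  simpa using h

lemma one : (1 : FreeAlgebra A (Fin 4)) ∈ lowdeg A 4 5 := by
  have h := pw A 0 0 (by norm_num)
  simpa using h

lemma alg (a : A) : algebraMap A (FreeAlgebra A (Fin 4)) a ∈ lowdeg A 4 5 := by
  rw [Algebra.algebraMap_eq_smul_one]
  exact Submodule.smul_mem _ _ (one A)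

end AuxDeg

open AuxDeg in
theorem pr_Deg : S_Deg := by
  intro A _ α β x
  fin_cases x
  · exact sub_mem (w2 A 0 1) (w2 A 1 0)
  · exact sub_mem (w2 A 2 3) (w2 A 3 2)
  · exact add_mem (w2 A 0 2) (w2 A 2 0)
  · exact add_mem (w2 A 0 3) (w2 A 3 0)
  · exact add_mem (w2 A 1 2) (w2 A 2 1)
  · exact add_mem (w2 A 1 3) (w2 A 3 1)
  · have h : (FreeAlgebra.ι A (0 : Fin 4) ^ 2 - 1) ^ 2 = FreeAlgebra.ι A (0 : Fin 4) ^ 4 -
        FreeAlgebra.ι A (0 : Fin 4) ^ 2 - FreeAlgebra.ι A (0 : Fin 4) ^ 2 + 1 := by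
      noncomm_ring
    change FreeAlgebra.ι A (1 : Fin 4) ^ 2 - ((FreeAlgebra.ι A (0 : Fin 4) ^ 2 - 1) ^ 2 -
      algebraMap A _ α) ∈ _
    rw [h]
    exact sub_mem (pw A 1 2 (by norm_num)) (sub_mem (add_mem (sub_mem (sub_mem
      (pw A 0 4 (by norm_num)) (pw A 0 2 (by norm_num))) (pw A 0 2 (by norm_num))) (one A))
      (alg A α))
  · exact sub_mem (pw A 3 2 (by norm_num)) (add_mem (add_mem (pw A 2 4 (by norm_num))
      (pw A 2 2 (by norm_num))) (alg A β))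

end Pool.Agent.Work.MP_bcc032_al.PI
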