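import Pool.Agent.Work.MP_bcc032_al.PI.Stmts

set_option autoImplicit false

namespace Pool.Agent.Work.MP_bcc032_al.PI

namespace AuxHNe

/-- value of the Hall polynomial at three elements -/
lemma lift_hall (k : Type) [Field k] (B : Type) [Ring B] [Algebra k B] (x y z : B) :
    FreeAlgebra.lift k ![x, y, z] (hall k) =
      (x * y - y * x) ^ 2 * z - z * (x * y - y * x) ^ 2 := by
  simp [hall, FreeAlgebra.lift_ι_apply]

end AuxHNe

theorem pr_HNe : S_HNe := by
  intro k _ h
  have h1 := AuxHNe.lift_hall k (Matrix (Fin 3) (Fin 3) k)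
    (Matrix.single 0 1 1) (Matrix.single 1 0 1) (Matrix.single 0 2 1)
  rw [h, map_zero] at h1
  have h2 := congrFun (congrFun h1 0) 2
  simp [pow_two, Matrix.mul_apply, Matrix.single_apply, Matrix.sub_apply] at h2

end Pool.Agent.Work.MP_bcc032_al.PI
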