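import Pool.Agent.Work.MP_bcc032_al.PI.Stmts

set_option autoImplicit false

/-! Item Hall of block PI (MP_bcc032_al, Q2). -/

namespace Pool.Agent.Work.MP_bcc032_al.PI

open Polynomial

noncomputable section

namespace AuxHall

variable {A : Type} [CommRing A] (α β : A)

/-- `F` is the operator `s ↦ x s + y τ s` -/
def Op (F : Module.End A (LA A α β)) (x y : LA A α β) : Prop :=
  ∀ s, F s = x * s + y * tau1 A α β s

variable {α β}

theorem Op_add {F F' : Module.End A (LA A α β)} {x y x' y' : LA A α β} (h : Op α β F x y)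
    (h' : Op α β F' x' y') : Op α β (F + F') (x + x') (y + y') := by
  intro s
  rw [LinearMap.add_apply, h s, h' s]
  ring

theorem Op_sub {F F' : Module.End A (LA A α β)} {x y x' y' : LA A α β} (h : Op α β F x y)
    (h' : Op α β F' x' y') : Op α β (F - F') (x - x') (y - y') := by
  intro s
  rw [LinearMap.sub_apply, h s, h' s]
  ring

theorem Op_mul {F F' : Module.End A (LA A α β)} {x y x' y' : LA A α β} (h : Op α β F x y)
    (h' : Op α β F' x' y') : Op α β (F * F') (x * x' + y * tau1 A α β y')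
      (x * y' + y * tau1 A α β x') := by
  intro s
  rw [Module.End.mul_apply, h, h' s, map_add, map_mul, map_mul, tau1_tau1]
  ring

variable (α β)

theorem gen (i : Fin 4) : ∃ x y, Op α β (Phi A α β (FreeAlgebra.ι A i)) x y := by
  rw [Phi, FreeAlgebra.lift_ι_apply]
  fin_cases i
  · exact ⟨gi A α β, 0, fun s => by
      rw [zero_mul, add_zero]; rfl⟩
  · exact ⟨gv A α β, 0, fun s => by
      rw [zero_mul, add_zero]; rfl⟩
  · exact ⟨0, gj A α β, fun s => by
      rw [zero_mul, zero_add]; rfl⟩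
  · exact ⟨0, gw A α β, fun s => by
      rw [zero_mul, zero_add]; rfl⟩

theorem ex_op (p : FreeAlgebra A (Fin 4)) : ∃ x y, Op α β (Phi A α β p) x y := by
  induction p using FreeAlgebra.induction with
  | grade0 r =>
    refine ⟨algebraMap A _ r, 0, fun s => ?_⟩
    rw [AlgHom.commutes, Module.algebraMap_end_apply, zero_mul, add_zero, Algebra.smul_def]
  | grade1 i => exact gen α β i
  | mul a b ha hb =>
    obtain ⟨x, y, h⟩ := ha
    obtain ⟨x', y', h'⟩ := hb
    rw [map_mul]
    exact ⟨_, _, Op_mul h h'⟩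
  | add a b ha hb =>
    obtain ⟨x, y, h⟩ := ha
    obtain ⟨x', y', h'⟩ := hb
    rw [map_add]
    exact ⟨_, _, Op_add h h'⟩

end AuxHall

open AuxHall in
theorem pr_Hall : S_Hall := by
  intro A _ _ α β a
  obtain ⟨x0, y0, h0⟩ := ex_op α β (a 0)
  obtain ⟨x1, y1, h1⟩ := ex_op α β (a 1)
  obtain ⟨x2, y2, h2⟩ := ex_op α β (a 2)
  have hC := Op_sub (Op_mul h0 h1) (Op_mul h1 h0)
  have hC2 := Op_mul hC hC
  have hF := Op_sub (Op_mul hC2 h2) (Op_mul h2 hC2)
  have e : Phi A α β (FreeAlgebra.lift A a (hall A)) =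
      (Phi A α β (a 0) * Phi A α β (a 1) - Phi A α β (a 1) * Phi A α β (a 0)) *
      (Phi A α β (a 0) * Phi A α β (a 1) - Phi A α β (a 1) * Phi A α β (a 0)) *
        Phi A α β (a 2) -
      Phi A α β (a 2) *
      ((Phi A α β (a 0) * Phi A α β (a 1) - Phi A α β (a 1) * Phi A α β (a 0)) *
      (Phi A α β (a 0) * Phi A α β (a 1) - Phi A α β (a 1) * Phi A α β (a 0))) := by
    simp only [hall, map_sub, map_mul, FreeAlgebra.lift_ι_apply, sq]
  rw [e]
  apply LinearMap.ext
  intro s
  rw [hF s, LinearMap.zero_apply]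
  simp only [map_mul, map_add, map_sub, tau1_tau1]
  ring

end

end Pool.Agent.Work.MP_bcc032_al.PI
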