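import Pool.Agent.Work.MP_bcc032_al.PI.Stmts

set_option autoImplicit false

namespace Pool.Agent.Work.MP_bcc032_al.PI

open Polynomial

noncomputable section

namespace AuxKap

/-- Universal property of `Q[ω]`, `ω^2 = a`. -/
def qlift {Q T : Type} [CommRing Q] [CommRing T] (f : Q →+* T) {a : Q} (u : T)
    (hu : u ^ 2 = f a) : QuadraticAlgebra Q a 0 →+* T where
  toFun z := f z.re + f z.im * u
  map_one' := by rw [QuadraticAlgebra.re_one, QuadraticAlgebra.im_one]; simp
  map_mul' x y := by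
    rw [QuadraticAlgebra.re_mul, QuadraticAlgebra.im_mul]
    simp only [map_add, map_mul, zero_mul, add_zero]
    linear_combination (-(f x.im * f y.im)) * hu
  map_zero' := by rw [QuadraticAlgebra.re_zero, QuadraticAlgebra.im_zero]; simp
  map_add' x y := by
    rw [QuadraticAlgebra.re_add, QuadraticAlgebra.im_add]
    simp only [map_add]; ring

theorem qlift_apply {Q T : Type} [CommRing Q] [CommRing T] (f : Q →+* T) {a : Q} (u : T)
    (hu : u ^ 2 = f a) (z : QuadraticAlgebra Q a 0) : qlift f u hu z = f z.re + f z.im * u := rfl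

theorem qlift_algebraMap {Q T : Type} [CommRing Q] [CommRing T] (f : Q →+* T) {a : Q} (u : T)
    (hu : u ^ 2 = f a) (q : Q) : qlift f u hu (algebraMap Q (QuadraticAlgebra Q a 0) q) = f q := by
  rw [qlift_apply]
  show f q + f 0 * u = f q
  simp

theorem qlift_omega {Q T : Type} [CommRing Q] [CommRing T] (f : Q →+* T) {a : Q} (u : T)
    (hu : u ^ 2 = f a) : qlift f u hu (⟨0, 1⟩ : QuadraticAlgebra Q a 0) = u := by
  rw [qlift_apply]
  show f 0 + f 1 * u = u
  simp

section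
variable (S : Type) [CommRing S]

/-- `S[X] → Tp S`, `X ↦ ω`. -/
def hh : S[X] →+* Tp S := eval₂RingHom ((algebraMap S[X] (Tp S)).comp C) ⟨0, 1⟩

theorem hh_X : hh S X = ⟨0, 1⟩ := by simp [hh]

theorem hh_C (s : S) : hh S (C s) = algebraMap S[X] (Tp S) (C s) := by simp [hh]

theorem W_sq : (⟨0, 1⟩ : Tp S) ^ 2 = (algebraMap S[X] (Tp S) X) ^ 2 - 1 := by
  rw [omega_sq, map_sub, map_pow, map_one]

/-- `S[X] → T2`, `X ↦ ω` for `T2 = S[X][ω]`, `ω^2 = X^2+1`. -/
def gg : S[X] →+* QuadraticAlgebra S[X] (X ^ 2 + 1) 0 :=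
  eval₂RingHom ((algebraMap S[X] (QuadraticAlgebra S[X] (X ^ 2 + 1) 0)).comp C) ⟨0, 1⟩

theorem gg_X : gg S X = ⟨0, 1⟩ := by simp [gg]

theorem gg_C (s : S) :
    gg S (C s) = algebraMap S[X] (QuadraticAlgebra S[X] (X ^ 2 + 1) 0) (C s) := by simp [gg]

theorem la_cond : (algebraMap S[X] (QuadraticAlgebra S[X] (X ^ 2 + 1) 0) X) ^ 2 =
    gg S (X ^ 2 - 1) := by
  rw [map_sub, map_pow, map_one, gg_X, omega_sq, map_add, map_pow, map_one]
  ring

/-- The map `Tp S → T2`. -/
def la : Tp S →+* QuadraticAlgebra S[X] (X ^ 2 + 1) 0 :=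
  qlift (gg S) (algebraMap S[X] (QuadraticAlgebra S[X] (X ^ 2 + 1) 0) X) (la_cond S)

theorem la_hh (P : S[X]) :
    la S (hh S P) = algebraMap S[X] (QuadraticAlgebra S[X] (X ^ 2 + 1) 0) P := by
  have h : (la S).comp (hh S) = algebraMap S[X] (QuadraticAlgebra S[X] (X ^ 2 + 1) 0) := by
    apply Polynomial.ringHom_ext
    · intro s
      rw [RingHom.comp_apply, hh_C, la, qlift_algebraMap, gg_C]
    · rw [RingHom.comp_apply, hh_X, la, qlift_omega]
  exact RingHom.congr_fun h P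

theorem la_W : la S ⟨0, 1⟩ = algebraMap S[X] (QuadraticAlgebra S[X] (X ^ 2 + 1) 0) X := by
  rw [la, qlift_omega]

theorem la_U : la S (algebraMap S[X] (Tp S) X) = ⟨0, 1⟩ := by
  rw [la, qlift_algebraMap, gg_X]

theorem tp1_W (τ : S →+* S) : tp1 τ ⟨0, 1⟩ = ⟨0, 1⟩ := by
  ext1
  · show Polynomial.map τ 0 = 0
    simp
  · show Polynomial.map τ 1 = 1
    simp

theorem tp1_alg (τ : S →+* S) (P : S[X]) :
    tp1 τ (algebraMap S[X] (Tp S) P) = algebraMap S[X] (Tp S) (P.map τ) := by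
  ext1
  · rfl
  · show Polynomial.map τ 0 = 0
    simp

theorem hh_map (τ : S →+* S) (P : S[X]) : hh S (P.map τ) = tp1 τ (hh S P) := by
  have h : (hh S).comp (mapRingHom τ) = (tp1 τ).comp (hh S) := by
    apply Polynomial.ringHom_ext
    · intro s
      rw [RingHom.comp_apply, RingHom.comp_apply, hh_C, tp1_alg, coe_mapRingHom, map_C, hh_C]
    · rw [RingHom.comp_apply, RingHom.comp_apply, coe_mapRingHom, map_X, hh_X, tp1_W]
  exact RingHom.congr_fun h P

theorem tp2_W : tp2 S ⟨0, 1⟩ = -⟨0, 1⟩ := by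
  ext1
  · show (0 : S[X]) = -0
    simp
  · rfl

theorem tp2_alg (P : S[X]) :
    tp2 S (algebraMap S[X] (Tp S) P) = algebraMap S[X] (Tp S) P := by
  ext1
  · rfl
  · show -(0 : S[X]) = 0
    simp

theorem hh_comp (P : S[X]) : hh S (P.comp (-X)) = tp2 S (hh S P) := by
  have h : (hh S).comp (compRingHom (-X)) = (tp2 S).comp (hh S) := by
    apply Polynomial.ringHom_ext
    · intro s
      rw [RingHom.comp_apply, RingHom.comp_apply, hh_C, tp2_alg, coe_compRingHom_apply, C_comp,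
        hh_C]
    · rw [RingHom.comp_apply, RingHom.comp_apply, coe_compRingHom_apply, X_comp, map_neg, hh_X,
        tp2_W]
  exact RingHom.congr_fun h P

end

variable (A : Type) [CommRing A] (α : A)

theorem ka_cond : ((⟨0, 1⟩ : Tp (SA A α)) * algebraMap (SA A α)[X] (Tp (SA A α)) X) ^ 2 =
    hh (SA A α) (gS A α 0) := by
  have h0 : gS A α 0 = X ^ 4 + X ^ 2 := by
    rw [gS, map_zero, map_zero, add_zero]
  rw [h0, map_add, map_pow, map_pow, hh_X, mul_pow]
  linear_combination (-(⟨0, 1⟩ : Tp (SA A α)) ^ 2) * W_sq (SA A α)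

/-- The embedding. -/
def ka : LA A α 0 →+* Tp (SA A α) :=
  qlift (hh (SA A α)) ((⟨0, 1⟩ : Tp (SA A α)) * algebraMap (SA A α)[X] (Tp (SA A α)) X)
    (ka_cond A α)

end AuxKap

open AuxKap

theorem pr_Kap : S_Kap := by
  intro A _ α
  refine ⟨ka A α, ?_, ?_, ?_⟩
  · rw [injective_iff_map_eq_zero]
    intro t ht
    have h1 : la (SA A α) (ka A α t) = 0 := by rw [ht, map_zero]
    rw [ka, qlift_apply, map_add, map_mul, map_mul, la_hh, la_hh, la_W, la_U] at h1
    have h2 : (⟨t.re, t.im * X⟩ : QuadraticAlgebra (SA A α)[X] (X ^ 2 + 1) 0) = 0 := by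
      rw [← h1]
      have e1 : (⟨0, 1⟩ : QuadraticAlgebra (SA A α)[X] (X ^ 2 + 1) 0).re = 0 := rfl
      have e2 : (⟨0, 1⟩ : QuadraticAlgebra (SA A α)[X] (X ^ 2 + 1) 0).im = 1 := rfl
      have e3 : ∀ P : (SA A α)[X],
        (algebraMap (SA A α)[X] (QuadraticAlgebra (SA A α)[X] (X ^ 2 + 1) 0) P).re = P :=
        fun _ => rfl
      have e4 : ∀ P : (SA A α)[X],
        (algebraMap (SA A α)[X] (QuadraticAlgebra (SA A α)[X] (X ^ 2 + 1) 0) P).im = 0 :=
        fun _ => rfl
      rw [← mul_assoc, ← map_mul]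
      ext1
      · rw [QuadraticAlgebra.re_add, QuadraticAlgebra.re_mul, e1, e2, e3, e3, e4]
        ring
      · rw [QuadraticAlgebra.im_add, QuadraticAlgebra.im_mul, e1, e2, e3, e4, e4]
        ring
    have h3 : t.re = 0 := congrArg QuadraticAlgebra.re h2
    have h4 : t.im * X = 0 := congrArg QuadraticAlgebra.im h2
    have h5 : t.im = 0 := by
      apply Polynomial.ext
      intro n
      have := congrArg (fun p => Polynomial.coeff p (n + 1)) h4
      simpa using this
    ext1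
    · exact h3
    · exact h5
  · intro t
    rw [ka, qlift_apply, qlift_apply, tau1_re, tau1_im, hh_map, hh_map, map_add, map_mul, map_mul,
      tp1_W, tp1_alg, map_X]
  · intro t
    rw [ka, qlift_apply, qlift_apply, tau2_re, tau2_im, map_neg, hh_comp, hh_comp, map_add,
      map_mul, map_mul, tp2_W, tp2_alg]
    ring

end

end Pool.Agent.Work.MP_bcc032_al.PI
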