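import Pool.Agent.Work.MP_bcc032_al.PI.Stmts
set_option autoImplicit false

namespace Pool.Agent.Work.MP_bcc032_al.PI

noncomputable section

namespace AuxKer

variable {A : Type} [CommRing A] (α β : A)

theorem ap0 (s : LA A α β) : Phi A α β (FreeAlgebra.ι A (0 : Fin 4)) s = gi A α β * s := by
  simp only [Phi, FreeAlgebra.lift_ι_apply]; rfl

theorem ap1 (s : LA A α β) : Phi A α β (FreeAlgebra.ι A (1 : Fin 4)) s = gv A α β * s := by
  simp only [Phi, FreeAlgebra.lift_ι_apply]; rfl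

theorem ap2 (s : LA A α β) :
    Phi A α β (FreeAlgebra.ι A (2 : Fin 4)) s = gj A α β * tau1 A α β s := by
  simp only [Phi, FreeAlgebra.lift_ι_apply]; rfl

theorem ap3 (s : LA A α β) :
    Phi A α β (FreeAlgebra.ι A (3 : Fin 4)) s = gw A α β * tau1 A α β s := by
  simp only [Phi, FreeAlgebra.lift_ι_apply]; rfl

theorem apC (a : A) (s : LA A α β) :
    Phi A α β (algebraMap A _ a) s = algebraMap A (LA A α β) a * s := by
  rw [AlgHom.commutes, Module.algebraMap_end_apply, Algebra.smul_def]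

theorem kk (x : Fin 8) : Phi A α β (rel A α β x) = 0 := by
  have h1 := tau1_gi α β
  have h2 := tau1_gv α β
  have h3 := tau1_gj α β
  have h4 := tau1_gw α β
  have h5 := tau1_tau1 α β
  have h6 := gv_sq α β
  have h7 := gw_sq α β
  fin_cases x
  · show Phi A α β (FreeAlgebra.ι A (0 : Fin 4) * FreeAlgebra.ι A (1 : Fin 4) -
      FreeAlgebra.ι A (1 : Fin 4) * FreeAlgebra.ι A (0 : Fin 4)) = 0
    apply LinearMap.ext
    intro s
    simp only [map_sub, map_mul, LinearMap.sub_apply, Module.End.mul_apply, ap0, ap1,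
      LinearMap.zero_apply]
    ring
  · show Phi A α β (FreeAlgebra.ι A (2 : Fin 4) * FreeAlgebra.ι A (3 : Fin 4) -
      FreeAlgebra.ι A (3 : Fin 4) * FreeAlgebra.ι A (2 : Fin 4)) = 0
    apply LinearMap.ext
    intro s
    simp only [map_sub, map_mul, LinearMap.sub_apply, Module.End.mul_apply, ap2, ap3,
      LinearMap.zero_apply, h3, h4, h5]
    ring
  · show Phi A α β (FreeAlgebra.ι A (0 : Fin 4) * FreeAlgebra.ι A (2 : Fin 4) +
      FreeAlgebra.ι A (2 : Fin 4) * FreeAlgebra.ι A (0 : Fin 4)) = 0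
    apply LinearMap.ext
    intro s
    simp only [map_add, map_mul, LinearMap.add_apply, Module.End.mul_apply, ap0, ap2,
      LinearMap.zero_apply, h1]
    ring
  · show Phi A α β (FreeAlgebra.ι A (0 : Fin 4) * FreeAlgebra.ι A (3 : Fin 4) +
      FreeAlgebra.ι A (3 : Fin 4) * FreeAlgebra.ι A (0 : Fin 4)) = 0
    apply LinearMap.ext
    intro s
    simp only [map_add, map_mul, LinearMap.add_apply, Module.End.mul_apply, ap0, ap3,
      LinearMap.zero_apply, h1]
    ring
  · show Phi A α β (FreeAlgebra.ι A (1 : Fin 4) * FreeAlgebra.ι A (2 : Fin 4) +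
      FreeAlgebra.ι A (2 : Fin 4) * FreeAlgebra.ι A (1 : Fin 4)) = 0
    apply LinearMap.ext
    intro s
    simp only [map_add, map_mul, LinearMap.add_apply, Module.End.mul_apply, ap1, ap2,
      LinearMap.zero_apply, h2]
    ring
  · show Phi A α β (FreeAlgebra.ι A (1 : Fin 4) * FreeAlgebra.ι A (3 : Fin 4) +
      FreeAlgebra.ι A (3 : Fin 4) * FreeAlgebra.ι A (1 : Fin 4)) = 0
    apply LinearMap.ext
    intro s
    simp only [map_add, map_mul, LinearMap.add_apply, Module.End.mul_apply, ap1, ap3,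
      LinearMap.zero_apply, h2]
    ring
  · have e : rel A α β ⟨6, by norm_num⟩ = FreeAlgebra.ι A (1 : Fin 4) * FreeAlgebra.ι A (1 : Fin 4)
      - ((FreeAlgebra.ι A (0 : Fin 4) * FreeAlgebra.ι A (0 : Fin 4) - 1) *
        (FreeAlgebra.ι A (0 : Fin 4) * FreeAlgebra.ι A (0 : Fin 4) - 1) - algebraMap A _ α) := by
      show FreeAlgebra.ι A (1 : Fin 4) ^ 2 - ((FreeAlgebra.ι A (0 : Fin 4) ^ 2 - 1) ^ 2 -
        algebraMap A _ α) = _
      rw [sq (FreeAlgebra.ι A (1 : Fin 4)), sq (FreeAlgebra.ι A (0 : Fin 4)), sq]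
    rw [e]
    apply LinearMap.ext
    intro s
    simp only [map_sub, map_mul, map_one, LinearMap.sub_apply, Module.End.mul_apply, ap0, ap1, apC,
      Module.End.one_apply, LinearMap.zero_apply]
    linear_combination s * h6
  · have e : rel A α β ⟨7, by norm_num⟩ = FreeAlgebra.ι A (3 : Fin 4) * FreeAlgebra.ι A (3 : Fin 4)
      - ((FreeAlgebra.ι A (2 : Fin 4) * (FreeAlgebra.ι A (2 : Fin 4) *
        (FreeAlgebra.ι A (2 : Fin 4) * FreeAlgebra.ι A (2 : Fin 4)))) +
        FreeAlgebra.ι A (2 : Fin 4) * FreeAlgebra.ι A (2 : Fin 4) + algebraMap A _ β) := by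
      show FreeAlgebra.ι A (3 : Fin 4) ^ 2 - (FreeAlgebra.ι A (2 : Fin 4) ^ 4 +
        FreeAlgebra.ι A (2 : Fin 4) ^ 2 + algebraMap A _ β) = _
      simp only [pow_succ, pow_zero, one_mul, mul_assoc]
    rw [e]
    apply LinearMap.ext
    intro s
    simp only [map_sub, map_add, map_mul, LinearMap.sub_apply, LinearMap.add_apply,
      Module.End.mul_apply, ap2, ap3, apC, LinearMap.zero_apply, h3, h4, h5]
    linear_combination s * h7

end AuxKer

theorem pr_Ker : S_Ker := by
  intro A _ α β p hp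
  have h : TwoSidedIdeal.span (Set.range (rel A α β)) ≤ TwoSidedIdeal.ker (Phi A α β) := by
    rw [TwoSidedIdeal.span_le]
    rintro _ ⟨x, rfl⟩
    show _ ∈ TwoSidedIdeal.ker (Phi A α β)
    rw [TwoSidedIdeal.mem_ker]
    exact AuxKer.kk α β x
  have h2 := h hp
  rwa [TwoSidedIdeal.mem_ker] at h2

end

end Pool.Agent.Work.MP_bcc032_al.PI
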