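import Pool.Agent.Work.MP_bcc032_al.PI.Stmts

set_option autoImplicit false

namespace Pool.Agent.Work.MP_bcc032_al.PI

theorem pr_Kon : S_Kon := by
  intro J _ F hmono hne hdet
  classical
  letI : TopologicalSpace (ZMod 3) := ⊥
  haveI : DiscreteTopology (ZMod 3) := ⟨rfl⟩
  haveI : Finite (ZMod 3) := inferInstanceAs (Finite (Fin 3))
  haveI : CompactSpace (ZMod 3) := inferInstance
  haveI : CompactSpace (ℕ → ZMod 3) := inferInstance
  haveI : CompactSpace (J → ℕ → ZMod 3) := inferInstance
  have hcl : ∀ L, IsClosed (F L) := by
    intro L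
    let g : (J → ℕ → ZMod 3) → (J → Fin (L + 1) → ZMod 3) := fun x j m => x j m
    have hg : Continuous g := by
      apply continuous_pi
      intro j
      apply continuous_pi
      intro m
      exact (continuous_apply (m : ℕ)).comp (continuous_apply j)
    have : F L = g ⁻¹' (g '' F L) := by
      ext y
      constructor
      · intro hy
        exact ⟨y, hy, rfl⟩
      · rintro ⟨x, hx, hxy⟩
        apply hdet L x y hx
        intro j n hn
        have := congrFun (congrFun hxy j) ⟨n, Nat.lt_succ_of_le hn⟩
        exact this
    rw [this]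
    exact (isClosed_discrete _).preimage hg
  obtain ⟨x, hx⟩ := IsCompact.nonempty_iInter_of_sequence_nonempty_isCompact_isClosed F hmono hne
    (hcl 0).isCompact hcl
  exact ⟨x, fun L => Set.mem_iInter.mp hx L⟩

end Pool.Agent.Work.MP_bcc032_al.PI
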