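import Pool.Agent.Work.MP_bcc032_al.PI.Stmts

set_option autoImplicit false

namespace Pool.Agent.Work.MP_bcc032_al.PI

open Polynomial

noncomputable section

namespace AuxNf

variable {A : Type} [CommRing A] {R : Type} [Ring R] [Algebra A R]

/-- elements which skew commute with `i` -/
theorem semi {i x y : R} (h : x * i = y * x) (p : A[X]) : x * aeval i p = aeval y p * x := by
  induction p using Polynomial.induction_on' with
  | add p q hp hq => rw [map_add, map_add, mul_add, add_mul, hp, hq]
  | monomial n a =>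
    rw [aeval_monomial, aeval_monomial]
    have h1 : x * i ^ n = y ^ n * x := (show SemiconjBy x i y from h).pow_right n
    rw [← mul_assoc, ← Algebra.commutes a x, mul_assoc, h1, mul_assoc]

/-- the first layer -/
def T1 {α : A} (i v : R) (s : SA A α) : R := aeval i s.re + aeval i s.im * v

theorem T1_add {α : A} (i v : R) (s t : SA A α) : T1 i v (s + t) = T1 i v s + T1 i v t := by
  unfold T1
  rw [QuadraticAlgebra.re_add, QuadraticAlgebra.im_add, map_add, map_add, add_mul]
  abel

theorem T1_zero {α : A} (i v : R) : T1 i v (0 : SA A α) = 0 := by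
  unfold T1
  rw [QuadraticAlgebra.re_zero, QuadraticAlgebra.im_zero, map_zero, zero_mul, add_zero]

theorem T1_i {α : A} (i v : R) (s : SA A α) : T1 i v ((⟨X, 0⟩ : SA A α) * s) = i * T1 i v s := by
  unfold T1
  rw [QuadraticAlgebra.re_mul, QuadraticAlgebra.im_mul]
  simp only [mul_zero, zero_mul, add_zero, map_mul, aeval_X]
  rw [mul_add, mul_assoc]

theorem T1_v {α : A} {i v : R} (h1 : i * v = v * i)
    (h2 : v ^ 2 = (i ^ 2 - 1) ^ 2 - algebraMap A R α) (s : SA A α) :
    T1 i v ((⟨0, 1⟩ : SA A α) * s) = v * T1 i v s := by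
  unfold T1
  rw [QuadraticAlgebra.re_mul, QuadraticAlgebra.im_mul]
  simp only [zero_mul, add_zero, zero_add, one_mul, mul_one]
  rw [mul_add, ← mul_assoc v, semi h1.symm, semi h1.symm, mul_assoc, ← sq, h2, map_mul]
  have h3 : aeval i (fS A α) = (i ^ 2 - 1) ^ 2 - algebraMap A R α := by
    unfold fS
    simp
  have h4 : aeval i (fS A α) * aeval i s.im = aeval i s.im * aeval i (fS A α) := by
    rw [← map_mul, mul_comm, map_mul]
  rw [h4, h3, add_comm]

theorem T1_c {α : A} (i v : R) (b : A) (s : SA A α) :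
    T1 i v (algebraMap A (SA A α) b * s) = T1 i v s * algebraMap A R b := by
  have e : algebraMap A (SA A α) b = ⟨C b, 0⟩ := rfl
  unfold T1
  rw [e, QuadraticAlgebra.re_mul, QuadraticAlgebra.im_mul]
  simp only [mul_zero, zero_mul, add_zero, map_mul, aeval_C]
  rw [add_mul, Algebra.commutes b, Algebra.commutes b, mul_assoc, mul_assoc, Algebra.commutes b]

theorem T1_tau {α : A} {i v x : R} (hi : x * i = -i * x) (hv : x * v = -v * x) (s : SA A α) :
    x * T1 i v s = T1 i v (tauS A α s) * x := by
  unfold T1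
  rw [tauS_re, tauS_im, map_neg, aeval_comp, aeval_comp, map_neg, aeval_X, mul_add, ← mul_assoc,
    semi hi, semi hi, add_mul]
  congr 1
  rw [mul_assoc, hv]
  noncomm_ring

/-- the second layer -/
def T2 {α : A} (i v j : R) (P : (SA A α)[X]) : R := P.sum fun m s => T1 i v s * j ^ m

theorem T2_add {α : A} (i v j : R) (P Q : (SA A α)[X]) :
    T2 i v j (P + Q) = T2 i v j P + T2 i v j Q := by
  unfold T2
  refine Polynomial.sum_add_index P Q _ (fun m => ?_) (fun m a b => ?_)
  · rw [T1_zero, zero_mul]
  · rw [T1_add, add_mul]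

theorem T2_mon {α : A} (i v j : R) (n : ℕ) (s : SA A α) :
    T2 i v j (monomial n s) = T1 i v s * j ^ n := by
  unfold T2
  refine Polynomial.sum_monomial_index s _ ?_
  rw [T1_zero, zero_mul]

theorem T2_zero {α : A} (i v j : R) : T2 i v j (0 : (SA A α)[X]) = 0 := by
  unfold T2
  exact Polynomial.sum_zero_index _

theorem T2_C {α : A} {i v j x : R} {s0 : SA A α} (h : ∀ s, T1 i v (s0 * s) = x * T1 i v s)
    (P : (SA A α)[X]) : T2 i v j (C s0 * P) = x * T2 i v j P := by
  induction P using Polynomial.induction_on' with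
  | add p q hp hq => rw [mul_add, T2_add, T2_add, hp, hq, mul_add]
  | monomial n a => rw [C_mul_monomial, T2_mon, T2_mon, h, mul_assoc]

theorem T2_X {α : A} (i v j : R) (P : (SA A α)[X]) : T2 i v j (X * P) = T2 i v j P * j := by
  induction P using Polynomial.induction_on' with
  | add p q hp hq => rw [mul_add, T2_add, T2_add, hp, hq, add_mul]
  | monomial n a => rw [X_mul_monomial, T2_mon, T2_mon, pow_succ, mul_assoc]

theorem T2_c {α : A} (i v j : R) (b : A) (P : (SA A α)[X]) :
    T2 i v j (C (algebraMap A (SA A α) b) * P) = T2 i v j P * algebraMap A R b := by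
  induction P using Polynomial.induction_on' with
  | add p q hp hq => rw [mul_add, T2_add, T2_add, hp, hq, add_mul]
  | monomial n a =>
    rw [C_mul_monomial, T2_mon, T2_mon, T1_c, mul_assoc, mul_assoc, Algebra.commutes b]

theorem T2_gS {α β : A} (i v j : R) (P : (SA A α)[X]) :
    T2 i v j (gS A α β * P) = T2 i v j P * (j ^ 4 + j ^ 2 + algebraMap A R β) := by
  have e : gS A α β * P = X * (X * (X * (X * P))) + X * (X * P) +
      C (algebraMap A (SA A α) β) * P := by
    unfold gS
    ring
  rw [e, T2_add, T2_add, T2_c]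
  simp only [T2_X]
  noncomm_ring

theorem T2_tau {α : A} {i v j x : R} (hi : x * i = -i * x) (hv : x * v = -v * x)
    (hj : x * j = j * x) (P : (SA A α)[X]) :
    x * T2 i v j P = T2 i v j (P.map (tauS A α)) * x := by
  induction P using Polynomial.induction_on' with
  | add p q hp hq => rw [T2_add, Polynomial.map_add, T2_add, mul_add, hp, hq, add_mul]
  | monomial n a =>
    rw [map_monomial, T2_mon, T2_mon, ← mul_assoc, T1_tau hi hv, mul_assoc, mul_assoc,
      (show Commute x j from hj).pow_right n]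

/-- the normal form map -/
def T {α β : A} (i v j w : R) (t : LA A α β) : R := T2 i v j t.re + T2 i v j t.im * w

theorem T_add {α β : A} (i v j w : R) (s t : LA A α β) :
    T i v j w (s + t) = T i v j w s + T i v j w t := by
  unfold T
  rw [QuadraticAlgebra.re_add, QuadraticAlgebra.im_add, T2_add, T2_add, add_mul]
  abel

theorem T_i {α β : A} (i v j w : R) (t : LA A α β) :
    T i v j w (gi A α β * t) = i * T i v j w t := by
  unfold T gi
  rw [QuadraticAlgebra.re_mul, QuadraticAlgebra.im_mul]
  simp only [mul_zero, zero_mul, add_zero]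
  rw [T2_C (T1_i i v), T2_C (T1_i i v), mul_add, mul_assoc]

theorem T_v {α β : A} {i v : R} (j w : R) (h1 : i * v = v * i)
    (h2 : v ^ 2 = (i ^ 2 - 1) ^ 2 - algebraMap A R α) (t : LA A α β) :
    T i v j w (gv A α β * t) = v * T i v j w t := by
  unfold T gv
  rw [QuadraticAlgebra.re_mul, QuadraticAlgebra.im_mul]
  simp only [mul_zero, zero_mul, add_zero]
  rw [T2_C (T1_v h1 h2), T2_C (T1_v h1 h2), mul_add, mul_assoc]

theorem T_j {α β : A} {i v j : R} (w : R) (hi : j * i = -i * j) (hv : j * v = -v * j)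
    (t : LA A α β) : T i v j w (gj A α β * tau1 A α β t) = j * T i v j w t := by
  unfold T gj
  rw [QuadraticAlgebra.re_mul, QuadraticAlgebra.im_mul, tau1_re, tau1_im]
  simp only [mul_zero, zero_mul, add_zero]
  rw [T2_X, T2_X, ← T2_tau hi hv rfl, ← T2_tau hi hv rfl, mul_add, mul_assoc]

theorem T_w {α β : A} {i v j w : R} (hi : w * i = -i * w) (hv : w * v = -v * w)
    (hj : w * j = j * w) (h2 : w ^ 2 = j ^ 4 + j ^ 2 + algebraMap A R β)
    (t : LA A α β) : T i v j w (gw A α β * tau1 A α β t) = w * T i v j w t := by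
  unfold T gw
  rw [QuadraticAlgebra.re_mul, QuadraticAlgebra.im_mul, tau1_re, tau1_im]
  simp only [zero_mul, add_zero, zero_add, one_mul, mul_one]
  rw [mul_add, ← mul_assoc w, T2_tau hi hv hj, T2_tau hi hv hj, mul_assoc, ← sq, h2, T2_gS,
    add_comm]

theorem T1_smul {α : A} (i v : R) (a : A) (s : SA A α) : T1 i v (a • s) = a • T1 i v s := by
  unfold T1
  rw [QuadraticAlgebra.re_smul, QuadraticAlgebra.im_smul, map_smul, map_smul, smul_add,
    smul_mul_assoc]

theorem T2_smul {α : A} (i v j : R) (a : A) (P : (SA A α)[X]) :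
    T2 i v j (a • P) = a • T2 i v j P := by
  induction P using Polynomial.induction_on' with
  | add p q hp hq => rw [smul_add, T2_add, T2_add, hp, hq, smul_add]
  | monomial n s => rw [smul_monomial, T2_mon, T2_mon, T1_smul, smul_mul_assoc]

theorem T_smul {α β : A} (i v j w : R) (a : A) (t : LA A α β) :
    T i v j w (a • t) = a • T i v j w t := by
  unfold T
  rw [QuadraticAlgebra.re_smul, QuadraticAlgebra.im_smul, T2_smul, T2_smul, smul_add,
    smul_mul_assoc]

theorem T_one {α β : A} (i v j w : R) : T i v j w (1 : LA A α β) = 1 := by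
  unfold T
  rw [QuadraticAlgebra.re_one, QuadraticAlgebra.im_one, T2_zero, zero_mul, add_zero]
  have e : (1 : (SA A α)[X]) = monomial 0 1 := rfl
  rw [e, T2_mon]
  unfold T1
  rw [QuadraticAlgebra.re_one, QuadraticAlgebra.im_one]
  simp

theorem Phi0 (α β : A) (t : LA A α β) : Phi A α β (FreeAlgebra.ι A 0) t = gi A α β * t := by
  unfold Phi
  rw [FreeAlgebra.lift_ι_apply]
  rfl

theorem Phi1 (α β : A) (t : LA A α β) : Phi A α β (FreeAlgebra.ι A 1) t = gv A α β * t := by
  unfold Phi
  rw [FreeAlgebra.lift_ι_apply]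
  rfl

theorem Phi2 (α β : A) (t : LA A α β) :
    Phi A α β (FreeAlgebra.ι A 2) t = gj A α β * tau1 A α β t := by
  unfold Phi
  rw [FreeAlgebra.lift_ι_apply]
  rfl

theorem Phi3 (α β : A) (t : LA A α β) :
    Phi A α β (FreeAlgebra.ι A 3) t = gw A α β * tau1 A α β t := by
  unfold Phi
  rw [FreeAlgebra.lift_ι_apply]
  rfl

theorem key (α β : A) (π : FreeAlgebra A (Fin 4) →ₐ[A] R)
    (h : ∀ x, π (rel A α β x) = 0) (p : FreeAlgebra A (Fin 4)) :
    ∀ t : LA A α β, T (π (FreeAlgebra.ι A 0)) (π (FreeAlgebra.ι A 1)) (π (FreeAlgebra.ι A 2))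
      (π (FreeAlgebra.ι A 3)) (Phi A α β p t) =
      π p * T (π (FreeAlgebra.ι A 0)) (π (FreeAlgebra.ι A 1)) (π (FreeAlgebra.ι A 2))
        (π (FreeAlgebra.ι A 3)) t := by
  set i := π (FreeAlgebra.ι A 0) with hi
  set v := π (FreeAlgebra.ι A 1) with hv
  set j := π (FreeAlgebra.ι A 2) with hj
  set w := π (FreeAlgebra.ι A 3) with hw
  have r0 : i * v - v * i = 0 := by
    have := h 0
    simpa [rel] using this
  have r1 : j * w - w * j = 0 := by
    have := h 1
    simpa [rel] using this
  have r2 : i * j + j * i = 0 := by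
    have := h 2
    simpa [rel] using this
  have r3 : i * w + w * i = 0 := by
    have := h 3
    simpa [rel] using this
  have r4 : v * j + j * v = 0 := by
    have := h 4
    simpa [rel] using this
  have r5 : v * w + w * v = 0 := by
    have := h 5
    simpa [rel] using this
  have r6 : v ^ 2 - ((i ^ 2 - 1) ^ 2 - algebraMap A R α) = 0 := by
    have := h 6
    simpa [rel] using this
  have r7 : w ^ 2 - (j ^ 4 + j ^ 2 + algebraMap A R β) = 0 := by
    have := h 7
    simpa [rel] using this
  have s0 : i * v = v * i := sub_eq_zero.1 r0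
  have s1 : w * j = j * w := (sub_eq_zero.1 r1).symm
  have s2 : j * i = -i * j := by
    rw [neg_mul]
    exact eq_neg_of_add_eq_zero_right r2
  have s3 : w * i = -i * w := by
    rw [neg_mul]
    exact eq_neg_of_add_eq_zero_right r3
  have s4 : j * v = -v * j := by
    rw [neg_mul]
    exact eq_neg_of_add_eq_zero_right r4
  have s5 : w * v = -v * w := by
    rw [neg_mul]
    exact eq_neg_of_add_eq_zero_right r5
  have s6 := sub_eq_zero.1 r6
  have s7 := sub_eq_zero.1 r7
  induction p using FreeAlgebra.induction with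
  | grade0 a =>
    intro t
    have e : Phi A α β (algebraMap A _ a) t = a • t := by
      rw [AlgHom.commutes]
      rfl
    rw [e, T_smul, AlgHom.commutes, Algebra.smul_def]
  | grade1 x =>
    intro t
    fin_cases x
    · show T i v j w (Phi A α β (FreeAlgebra.ι A 0) t) = i * T i v j w t
      rw [Phi0]
      exact T_i i v j w t
    · show T i v j w (Phi A α β (FreeAlgebra.ι A 1) t) = v * T i v j w t
      rw [Phi1]
      exact T_v j w s0 s6 t
    · show T i v j w (Phi A α β (FreeAlgebra.ι A 2) t) = j * T i v j w t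
      rw [Phi2]
      exact T_j w s2 s4 t
    · show T i v j w (Phi A α β (FreeAlgebra.ι A 3) t) = w * T i v j w t
      rw [Phi3]
      exact T_w s3 s5 s1 s7 t
  | mul p q hp hq =>
    intro t
    rw [map_mul, Module.End.mul_apply, hp, hq, map_mul, mul_assoc]
  | add p q hp hq =>
    intro t
    rw [map_add, LinearMap.add_apply, T_add, hp, hq, map_add, add_mul]

end AuxNf

open AuxNf

theorem pr_Nf : S_Nf := by
  intro A _ α β p hp
  let I := TwoSidedIdeal.span (Set.range (rel A α β))
  let π : FreeAlgebra A (Fin 4) →ₐ[A] I.ringCon.Quotient :=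
    { I.ringCon.mk' with commutes' := fun _ => rfl }
  have hI : ∀ q, π q = 0 ↔ q ∈ I := by
    intro q
    rw [TwoSidedIdeal.mem_iff]
    exact RingCon.eq I.ringCon
  have h : ∀ x, π (rel A α β x) = 0 := fun x =>
    (hI _).2 (TwoSidedIdeal.subset_span (Set.mem_range_self x))
  have h1 := key α β π h p 1
  have h2 : Phi A α β p 1 = 0 := hp
  rw [h2, T_one, mul_one] at h1
  rw [← hI, ← h1]
  have h3 := T_smul (π (FreeAlgebra.ι A 0)) (π (FreeAlgebra.ι A 1)) (π (FreeAlgebra.ι A 2))
    (π (FreeAlgebra.ι A 3)) (0 : A) (0 : LA A α β)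
  rw [zero_smul, zero_smul] at h3
  exact h3

end

end Pool.Agent.Work.MP_bcc032_al.PI
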