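import Pool.Agent.Work.MP_bcc032_al.PI.Stmts

/-!
# Project PI, item Par: parity of the order at `1`
-/

set_option autoImplicit false

namespace Pool.Agent.Work.MP_bcc032_al.PI

open Polynomial

namespace AuxPar

lemma rm_map {S : Type} [CommRing S] [IsDomain S] {τ : S →+* S} (hτ : Function.Injective τ)
    (p : S[X]) : (p.map τ).rootMultiplicity 1 = p.rootMultiplicity 1 := by
  have h := Polynomial.eq_rootMultiplicity_map (p := p) hτ 1
  rw [map_one] at h
  exact h.symm

lemma X2_eq (S : Type) [CommRing S] : (X ^ 2 - 1 : S[X]) = (X - C 1) * (X + C 1) := by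
  rw [C_1]; ring

lemma X2_ne {S : Type} [CommRing S] [IsDomain S] : (X ^ 2 - 1 : S[X]) ≠ 0 := by
  rw [X2_eq]
  exact mul_ne_zero (X_sub_C_ne_zero 1) (X_add_C_ne_zero 1)

lemma rm_X2 {S : Type} [CommRing S] [IsDomain S] (h2 : (2 : S) ≠ 0) :
    (X ^ 2 - 1 : S[X]).rootMultiplicity 1 = 1 := by
  rw [X2_eq, rootMultiplicity_mul (by rw [← X2_eq]; exact X2_ne),
    rootMultiplicity_X_sub_C_self, rootMultiplicity_eq_zero]
  rw [IsRoot.def, eval_add, eval_X, eval_C]
  intro h
  exact h2 (by rw [← h]; norm_num)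

end AuxPar

theorem pr_Par : S_Par := by
  intro S _ _ τ hτ h2 a b hab
  have hm : ∀ p : S[X], p.map τ = 0 → p = 0 := fun p hp =>
    (Polynomial.map_eq_zero_iff hτ).1 hp
  by_cases ha : a = 0
  · refine ⟨ha, ?_⟩
    rw [ha, zero_mul] at hab
    rcases mul_eq_zero.1 hab.symm with h | h
    · exact absurd h AuxPar.X2_ne
    · rcases mul_eq_zero.1 h with h | h
      · exact h
      · exact hm b h
  · exfalso
    have ha' : a.map τ ≠ 0 := fun h => ha (hm a h)
    have hL : a * a.map τ ≠ 0 := mul_ne_zero ha ha'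
    have hR : (X ^ 2 - 1) * (b * b.map τ) ≠ 0 := hab ▸ hL
    have hB : b * b.map τ ≠ 0 := right_ne_zero_of_mul hR
    have h := congrArg (rootMultiplicity 1) hab
    rw [rootMultiplicity_mul hL, rootMultiplicity_mul hR, rootMultiplicity_mul hB,
      AuxPar.rm_map hτ, AuxPar.rm_map hτ, AuxPar.rm_X2 h2] at h
    omega

end Pool.Agent.Work.MP_bcc032_al.PI
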