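import Pool.Agent.Work.MP_bcc032_al.PI.Stmts

set_option autoImplicit false

namespace Pool.Agent.Work.MP_bcc032_al.PI

open Polynomial

namespace AuxSDom

variable {A : Type} [CommRing A] [IsDomain A]

theorem not_sq (h2 : (2 : A) ≠ 0) (α : A) (hα : α ≠ 0) (e : A[X]) : fS A α ≠ e ^ 2 := by
  intro h
  have h1 : (X ^ 2 - 1 - e) * (X ^ 2 - 1 + e) = C α := by
    have h3 : (X ^ 2 - 1 : A[X]) ^ 2 - C α = e ^ 2 := h
    linear_combination h3
  have hC : (C α : A[X]) ≠ 0 := by rwa [Ne, C_eq_zero]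
  have ha : (X ^ 2 - 1 - e : A[X]) ≠ 0 := by
    intro h0; rw [h0, zero_mul] at h1; exact hC h1.symm
  have hb : (X ^ 2 - 1 + e : A[X]) ≠ 0 := by
    intro h0; rw [h0, mul_zero] at h1; exact hC h1.symm
  have hd := Polynomial.natDegree_mul ha hb
  rw [h1, natDegree_C] at hd
  have hd1 : (X ^ 2 - 1 - e : A[X]).natDegree = 0 := by omega
  have hd2 : (X ^ 2 - 1 + e : A[X]).natDegree = 0 := by omega
  rw [natDegree_eq_zero] at hd1 hd2
  obtain ⟨u, hu⟩ := hd1
  obtain ⟨v, hv⟩ := hd2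
  have h4 : (C u + C v : A[X]) = C 2 * (X ^ 2 - 1) := by
    rw [hu, hv]
    have : (C 2 : A[X]) = 2 := by exact Polynomial.C_ofNat 2
    rw [this]; ring
  have h5 := congrArg (fun p : A[X] => p.coeff 2) h4
  simp only [coeff_add, coeff_C_mul, coeff_sub, coeff_X_pow, coeff_one, coeff_C] at h5
  norm_num at h5
  exact h2 h5.symm

theorem sq_eq (h2 : (2 : A) ≠ 0) [UniqueFactorizationMonoid A] (α : A) (hα : α ≠ 0) (p q : A[X])
    (h : p ^ 2 = fS A α * q ^ 2) : p = 0 ∧ q = 0 := by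
  by_cases hq : q = 0
  · subst hq
    refine ⟨?_, rfl⟩
    have : p ^ 2 = 0 := by rw [h]; ring
    exact pow_eq_zero_iff (two_ne_zero) |>.1 this
  · exfalso
    have hd : q ^ 2 ∣ p ^ 2 := ⟨fS A α, by rw [h]; ring⟩
    have hd' : q ∣ p := (IsIntegrallyClosed.pow_dvd_pow_iff two_ne_zero).1 hd
    obtain ⟨e, rfl⟩ := hd'
    apply not_sq h2 α hα e
    have h3 : q ^ 2 * (fS A α) = q ^ 2 * e ^ 2 := by
      linear_combination -h
    exact mul_left_cancel₀ (pow_ne_zero 2 hq) h3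

theorem norm_zero (h2 : (2 : A) ≠ 0) [UniqueFactorizationMonoid A] (α : A) (hα : α ≠ 0)
    (s : SA A α) (h : QuadraticAlgebra.norm s = 0) : s = 0 := by
  rw [QuadraticAlgebra.norm_def] at h
  have h1 : s.re ^ 2 = fS A α * s.im ^ 2 := by
    linear_combination h
  obtain ⟨h3, h4⟩ := sq_eq h2 α hα _ _ h1
  ext1
  · rw [h3]; rfl
  · rw [h4]; rfl

end AuxSDom

theorem pr_SDom : S_SDom := by
  intro A _ _ _ h2 α hα s s' h
  have h1 : QuadraticAlgebra.norm s * QuadraticAlgebra.norm s' = 0 := by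
    rw [← map_mul, h]
    exact QuadraticAlgebra.norm_zero
  rcases mul_eq_zero.1 h1 with h3 | h3
  · exact Or.inl (AuxSDom.norm_zero h2 α hα s h3)
  · exact Or.inr (AuxSDom.norm_zero h2 α hα s' h3)

end Pool.Agent.Work.MP_bcc032_al.PI
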