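import Pool.Agent.Work.MP_bcc032_al.PI.Stmts

set_option autoImplicit false

/-! Item Sc: scaling to a primitive vector. -/

namespace Pool.Agent.Work.MP_bcc032_al.PI

open Polynomial

noncomputable section

namespace AuxSc

theorem primitive (J : Type) (N : ℕ) : ∀ d0 : J → PowerSeries (ZMod 3),
    (∃ x, PowerSeries.coeff N (d0 x) ≠ 0) → ∃ (n : ℕ) (d : J → PowerSeries (ZMod 3)),
      (∀ x, d0 x = (PowerSeries.X : PowerSeries (ZMod 3)) ^ n * d x) ∧
        ∃ x, PowerSeries.constantCoeff (d x) ≠ 0 := by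
  induction N with
  | zero =>
    rintro d0 ⟨x, hx⟩
    refine ⟨0, d0, fun x => by rw [pow_zero, one_mul], x, ?_⟩
    rwa [← PowerSeries.coeff_zero_eq_constantCoeff_apply]
  | succ N ih =>
    rintro d0 ⟨x, hx⟩
    by_cases h : ∃ x, PowerSeries.constantCoeff (d0 x) ≠ 0
    · exact ⟨0, d0, fun x => by rw [pow_zero, one_mul], h⟩
    · push Not at h
      have h1 : ∀ x, ∃ e, d0 x = (PowerSeries.X : PowerSeries (ZMod 3)) * e := fun x =>
        PowerSeries.X_dvd_iff.mpr (h x)
      choose e he using h1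
      obtain ⟨n, d, hd, hd'⟩ := ih e ⟨x, by
        rw [he x, PowerSeries.coeff_succ_X_mul] at hx
        exact hx⟩
      refine ⟨n + 1, d, fun x => ?_, hd'⟩
      rw [he x, hd x, pow_succ']
      ring

end AuxSc

open AuxSc in
theorem pr_Sc : S_Sc := by
  intro J _ c hc
  obtain ⟨b, hb⟩ := IsLocalization.exist_integer_multiples_of_finite
    (nonZeroDivisors (PowerSeries (ZMod 3))) c
  choose d0 hd0 using hb
  have hb0 : (b : PowerSeries (ZMod 3)) ≠ 0 := nonZeroDivisors.ne_zero b.2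
  have hinj : Function.Injective
      (algebraMap (PowerSeries (ZMod 3)) (FractionRing (PowerSeries (ZMod 3)))) :=
    IsFractionRing.injective _ _
  have hb1 : algebraMap (PowerSeries (ZMod 3)) (FractionRing (PowerSeries (ZMod 3))) b ≠ 0 := by
    rw [Ne, map_eq_zero_iff _ hinj]
    exact hb0
  obtain ⟨x0, hx0⟩ : ∃ x, c x ≠ 0 := by
    by_contra h
    push Not at h
    exact hc (funext h)
  have hd0' : d0 x0 ≠ 0 := by
    intro h
    have h1 := hd0 x0
    rw [h, map_zero, Algebra.smul_def] at h1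
    exact (mul_ne_zero hb1 hx0) h1.symm
  obtain ⟨N, hN⟩ : ∃ N, PowerSeries.coeff N (d0 x0) ≠ 0 := by
    by_contra h
    push Not at h
    exact hd0' (PowerSeries.ext fun n => by rw [h n, map_zero])
  obtain ⟨n, d, hd, hd'⟩ := primitive J N d0 ⟨x0, hN⟩
  have hX : algebraMap (PowerSeries (ZMod 3)) (FractionRing (PowerSeries (ZMod 3)))
      (PowerSeries.X ^ n) ≠ 0 := by
    rw [Ne, map_eq_zero_iff _ hinj]
    exact pow_ne_zero n PowerSeries.X_ne_zero
  refine ⟨algebraMap _ _ (b : PowerSeries (ZMod 3)) /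
    algebraMap (PowerSeries (ZMod 3)) (FractionRing (PowerSeries (ZMod 3)))
      (PowerSeries.X ^ n), d, div_ne_zero hb1 hX, fun x => ?_, hd'⟩
  have h1 := hd0 x
  rw [Algebra.smul_def, hd x, map_mul] at h1
  rw [div_mul_eq_mul_div, div_eq_iff hX, ← h1]
  ring

end

end Pool.Agent.Work.MP_bcc032_al.PI
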