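import Pool.Agent.Work.MP_bcc032_al.PI.Stmts

set_option autoImplicit false

namespace Pool.Agent.Work.MP_bcc032_al.PI

open Polynomial

noncomputable section

namespace AuxTp

theorem st_eq {S : Type} [CommRing S] (τ : S →+* S) (a b c d : S[X]) :
    st (tp1 τ) (tp2 S) ⟨a, b⟩ ⟨c, d⟩ =
      ⟨-((a + a) * c + (X ^ 2 - 1) * (b + b) * d.map τ), -((a + a) * d + (b + b) * c.map τ)⟩ := by
  have e1 : ((⟨a, b⟩ : Tp S) + tp2 S ⟨a, b⟩) = ⟨a + a, 0⟩ := by
    ext1
    · rfl
    · show b + -b = 0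
      ring
  have e2 : ((⟨a, b⟩ : Tp S) - tp2 S ⟨a, b⟩) = ⟨0, b + b⟩ := by
    ext1
    · show a - a = 0
      ring
    · show b - -b = b + b
      ring
  have e3 : tp1 τ (⟨c, d⟩ : Tp S) = ⟨c.map τ, d.map τ⟩ := rfl
  unfold st
  rw [e1, e2, e3]
  ext1
  · rw [QuadraticAlgebra.re_neg, QuadraticAlgebra.re_add, QuadraticAlgebra.re_mul,
      QuadraticAlgebra.re_mul]
    show -((a + a) * c + (X ^ 2 - 1) * 0 * d + (0 * c.map τ + (X ^ 2 - 1) * (b + b) * d.map τ)) = _
    ring
  · rw [QuadraticAlgebra.im_neg, QuadraticAlgebra.im_add, QuadraticAlgebra.im_mul,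
      QuadraticAlgebra.im_mul]
    show -((a + a) * d + 0 * c + 0 * 0 * d + (0 * d.map τ + (b + b) * c.map τ
      + 0 * (b + b) * d.map τ)) = _
    ring

end AuxTp

theorem pr_Tp (hp : S_Par) : S_Tp := by
  intro S _ _ τ hτ h3 t s h
  have h2 : (2 : S) ≠ 0 := by
    intro h2
    have : (1 : S) = 3 - 2 := by ring
    rw [h3, h2, sub_zero] at this
    exact one_ne_zero this
  have hinj : Function.Injective τ := fun x y hxy => by rw [← hτ x, hxy, hτ]
  have h3X : (3 : S[X]) = 0 := by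
    have : (3 : S[X]) = C (3 : S) := (C_ofNat 3).symm
    rw [this, h3, C_0]
  obtain ⟨a, b⟩ := t
  obtain ⟨c, d⟩ := s
  rw [AuxTp.st_eq] at h
  have hre : -((a + a) * c + (X ^ 2 - 1) * (b + b) * d.map τ) = 0 :=
    congrArg QuadraticAlgebra.re h
  have him : -((a + a) * d + (b + b) * c.map τ) = 0 := congrArg QuadraticAlgebra.im h
  have hre' : a * c = -((X ^ 2 - 1) * b * d.map τ) := by
    linear_combination hre + (a * c + (X ^ 2 - 1) * b * d.map τ) * h3X
  have him' : a * d = -(b * c.map τ) := by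
    linear_combination him + (a * d + b * c.map τ) * h3X
  have hmm : ∀ P : S[X], (P.map τ).map τ = P := by
    intro P
    apply Polynomial.ext
    intro n
    simp only [coeff_map]
    exact hτ _
  -- map
  have hre2 : a.map τ * c.map τ = -((X ^ 2 - 1) * b.map τ * d) := by
    have := congrArg (Polynomial.map τ) hre'
    simpa [hmm] using this
  have him2 : a.map τ * d.map τ = -(b.map τ * c) := by
    have := congrArg (Polynomial.map τ) him'
    simpa [hmm] using this
  have hc : (a * a.map τ - (X ^ 2 - 1) * (b * b.map τ)) * c = 0 := by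
    linear_combination a.map τ * hre' - (X ^ 2 - 1) * b * him2
  have hd : (a * a.map τ - (X ^ 2 - 1) * (b * b.map τ)) * d = 0 := by
    linear_combination a.map τ * him' - b * hre2
  by_cases hs : c = 0 ∧ d = 0
  · right
    rw [hs.1, hs.2]
    rfl
  left
  have hz : a * a.map τ = (X ^ 2 - 1) * (b * b.map τ) := by
    rcases mul_eq_zero.mp hc with h1 | h1
    · exact sub_eq_zero.mp h1
    rcases mul_eq_zero.mp hd with h4 | h4
    · exact sub_eq_zero.mp h4
    exact absurd ⟨h1, h4⟩ hs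
  obtain ⟨ha, hb⟩ := hp S τ hinj h2 a b hz
  rw [ha, hb]
  rfl

end

end Pool.Agent.Work.MP_bcc032_al.PI
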