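import Pool.Agent.Work.MP_bcc032_al.PI.Stmts

set_option autoImplicit false

namespace Pool.Agent.Work.MP_bcc032_al.PI

open Polynomial

noncomputable section

namespace AuxZd

theorem frob {R : Type} [CommRing R] (h3 : (3 : R) = 0) (x y : R) :
    ∀ r : ℕ, (x - y) ^ 3 ^ r = x ^ 3 ^ r - y ^ 3 ^ r
  | 0 => by simp
  | r + 1 => by
    have h := frob h3 x y r
    rw [pow_succ, pow_mul, h, pow_mul, pow_mul]
    generalize x ^ 3 ^ r = a
    generalize y ^ 3 ^ r = b
    linear_combination (-a ^ 2 * b + a * b ^ 2) * h3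

theorem oddneg {R : Type} [CommRing R] (x : R) (r : ℕ) : (-x) ^ 3 ^ r = -x ^ 3 ^ r := by
  have h : Odd (3 ^ r) := Odd.pow (by decide)
  exact h.neg_pow x

variable {A : Type} [CommRing A]

theorem Phi0 (α β : A) (s : LA A α β) : Phi A α β (FreeAlgebra.ι A 0) s = gi A α β * s := by
  rw [Phi, FreeAlgebra.lift_ι_apply]; rfl

theorem Phi1 (α β : A) (s : LA A α β) : Phi A α β (FreeAlgebra.ι A 1) s = gv A α β * s := by
  rw [Phi, FreeAlgebra.lift_ι_apply]; rfl

theorem Phi2 (α β : A) (s : LA A α β) :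
    Phi A α β (FreeAlgebra.ι A 2) s = gj A α β * tau1 A α β s := by
  rw [Phi, FreeAlgebra.lift_ι_apply]; rfl

theorem Phi3 (α β : A) (s : LA A α β) :
    Phi A α β (FreeAlgebra.ι A 3) s = gw A α β * tau1 A α β s := by
  rw [Phi, FreeAlgebra.lift_ι_apply]; rfl

theorem Phi0pow (α β : A) (s : LA A α β) (n : ℕ) :
    Phi A α β (FreeAlgebra.ι A 0 ^ n) s = gi A α β ^ n * s := by
  induction n with
  | zero => simp
  | succ n ih => rw [pow_succ', map_mul, Module.End.mul_apply, ih, Phi0, pow_succ']; ring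

theorem Phi1pow (α β : A) (s : LA A α β) (n : ℕ) :
    Phi A α β (FreeAlgebra.ι A 1 ^ n) s = gv A α β ^ n * s := by
  induction n with
  | zero => simp
  | succ n ih => rw [pow_succ', map_mul, Module.End.mul_apply, ih, Phi1, pow_succ']; ring

/-- the first summand -/
def s0 (A : Type) [CommRing A] (q : ℕ) : FreeAlgebra A (Fin 4) :=
  FreeAlgebra.ι A 0 ^ (2 * q) + FreeAlgebra.ι A 2 ^ 2 - 1

/-- the second summand -/
def pi (A : Type) [CommRing A] (q : ℕ) : FreeAlgebra A (Fin 4) :=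
  FreeAlgebra.ι A 1 ^ q - FreeAlgebra.ι A 3 + FreeAlgebra.ι A 0 ^ q * FreeAlgebra.ι A 2

theorem cc_s0 (α β : A) (q : ℕ) : cc A α β (s0 A q) =
    (gi A α β ^ q) ^ 2 + gj A α β ^ 2 - 1 := by
  have h : Phi A α β (FreeAlgebra.ι A 2 ^ 2) 1 = gj A α β ^ 2 := by
    rw [sq, map_mul, Module.End.mul_apply, Phi2, Phi2, map_one, mul_one, tau1_gj, sq]
  rw [cc, s0, map_sub, map_add, LinearMap.sub_apply, LinearMap.add_apply, Phi0pow, h,
    map_one (Phi A α β), Module.End.one_apply, Nat.mul_comm 2 q, pow_mul, mul_one]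

theorem cc_pi (α β : A) (q : ℕ) : cc A α β (pi A q) =
    gv A α β ^ q - gw A α β + gi A α β ^ q * gj A α β := by
  rw [cc, pi, map_add, map_sub, LinearMap.add_apply, LinearMap.sub_apply, Phi1pow, Phi3, map_mul,
    Module.End.mul_apply, Phi2, Phi0pow, map_one, mul_one, mul_one, mul_one]

theorem cc_add (α β : A) (x y : FreeAlgebra A (Fin 4)) :
    cc A α β (x + y) = cc A α β x + cc A α β y := by simp [cc]

theorem cc_sub (α β : A) (x y : FreeAlgebra A (Fin 4)) :
    cc A α β (x - y) = cc A α β x - cc A α β y := by simp [cc]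

theorem im_ne [Nontrivial A] (α : A) : (1 : (SA A α)[X]) ≠ 0 := by
  intro h
  have h1 : (1 : SA A α) = 0 := by
    have := congrArg (fun P : (SA A α)[X] => P.coeff 0) h
    simp at this
  have h2 : (1 : A[X]) = 0 := congrArg QuadraticAlgebra.re h1
  exact one_ne_zero h2

theorem ne1 [Nontrivial A] (α β : A) (Y : (SA A α)[X]) :
    algebraMap (SA A α)[X] (LA A α β) Y - gw A α β ≠ 0 := by
  intro h
  have h1 := congrArg QuadraticAlgebra.im h
  have h2 : (algebraMap (SA A α)[X] (LA A α β) Y - gw A α β).im = 0 - 1 := rfl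
  rw [h2] at h1
  have h3 : (0 : LA A α β).im = 0 := rfl
  rw [h3, zero_sub, neg_eq_zero] at h1
  exact im_ne α h1

theorem ne2 [Nontrivial A] (α β : A) (Y : (SA A α)[X]) :
    algebraMap (SA A α)[X] (LA A α β) Y + gw A α β ≠ 0 := by
  intro h
  have h1 := congrArg QuadraticAlgebra.im h
  have h2 : (algebraMap (SA A α)[X] (LA A α β) Y + gw A α β).im = 0 + 1 := rfl
  rw [h2] at h1
  have h3 : (0 : LA A α β).im = 0 := rfl
  rw [h3, zero_add] at h1
  exact im_ne α h1

end AuxZd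

open AuxZd in
theorem pr_Zd : S_Zd := by
  intro A _ _ h3 α r
  set β : A := α ^ 3 ^ r with hβ
  set q : ℕ := 3 ^ r with hq
  have h3L : (3 : LA A α β) = 0 := three_LA h3 α β
  set I : LA A α β := gi A α β ^ q with hI
  set V : LA A α β := gv A α β ^ q with hV
  set J : LA A α β := gj A α β with hJ
  set W : LA A α β := gw A α β with hW
  have eI : gi A α β = algebraMap (SA A α)[X] (LA A α β) (C ⟨X, 0⟩) := rfl
  have eV : gv A α β = algebraMap (SA A α)[X] (LA A α β) (C ⟨0, 1⟩) := rfl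
  have eJ : J = algebraMap (SA A α)[X] (LA A α β) X := rfl
  have e1 : cc A α β (s0 A q + pi A q) = (I ^ 2 + J ^ 2 - 1) + (V - W + I * J) := by
    rw [cc_add, cc_s0, cc_pi]
  have e2 : cc A α β (s0 A q - pi A q) = (I ^ 2 + J ^ 2 - 1) - (V - W + I * J) := by
    rw [cc_sub, cc_s0, cc_pi]
  refine ⟨s0 A q + pi A q, s0 A q - pi A q, ?_, ?_, ?_⟩
  · rw [e1]
    have h := ne1 α β ((C ⟨X, 0⟩ ^ q) ^ 2 + X ^ 2 - 1 + C ⟨0, 1⟩ ^ q + C ⟨X, 0⟩ ^ q * X)
    intro h'
    apply h
    rw [← h', hI, hV, eI, eV, eJ]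
    simp only [map_add, map_sub, map_mul, map_pow, map_one]
    ring
  · rw [e2]
    have h := ne2 α β ((C ⟨X, 0⟩ ^ q) ^ 2 + X ^ 2 - 1 - C ⟨0, 1⟩ ^ q - C ⟨X, 0⟩ ^ q * X)
    intro h'
    apply h
    rw [← h', hI, hV, eI, eV, eJ]
    simp only [map_add, map_sub, map_mul, map_pow, map_one]
    ring
  · rw [e1, e2]
    have t1I : tau1 A α β I = -I := by
      rw [hI, map_pow, tau1_gi, hq, oddneg]
    have t1V : tau1 A α β V = -V := by
      rw [hV, map_pow, tau1_gv, hq, oddneg]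
    have t1J : tau1 A α β J = J := tau1_gj α β
    have t1W : tau1 A α β W = W := tau1_gw α β
    have t2I : tau2 A α β I = I := by rw [hI, map_pow, tau2_gi]
    have t2V : tau2 A α β V = V := by rw [hV, map_pow, tau2_gv]
    have t2J : tau2 A α β J = -J := tau2_gj α β
    have t2W : tau2 A α β W = -W := tau2_gw α β
    have hV2 : V ^ 2 = (I ^ 2 - 1) ^ 2 - algebraMap A (LA A α β) β := by
      have h := gv_sq α β
      have h4 : V ^ 2 = (gv A α β ^ 2) ^ q := by rw [hV, ← pow_mul, ← pow_mul, Nat.mul_comm]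
      have h5 : algebraMap A (LA A α β) β = algebraMap A (LA A α β) α ^ q := by
        rw [← map_pow]
      rw [h5, h4, h, hq, frob h3L, ← pow_mul, Nat.mul_comm 2, pow_mul, frob h3L, one_pow, ← pow_mul,
        Nat.mul_comm 2, pow_mul]
    have hW2 : W ^ 2 = J ^ 4 + J ^ 2 + algebraMap A (LA A α β) β := gw_sq α β
    simp only [st, map_add, map_sub, map_mul, map_pow, map_one, t1I, t1V, t1J, t1W, t2I, t2V, t2J,
      t2W]
    linear_combination 2 * hV2 + 2 * hW2 + (-2 * I ^ 2 * J ^ 2 + 2 * J ^ 2) * h3L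

end

end Pool.Agent.Work.MP_bcc032_al.PI
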