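import Pool.Agent.Work.MP_bcc032_al.PI.Defs

set_option autoImplicit false

namespace Pool.Agent.Work.MP_bcc032_al.PI

open Polynomial

noncomputable section

variable {A : Type} [CommRing A]

theorem qmap_re {Q Q' : Type} [CommRing Q] [CommRing Q'] (h : Q →+* Q') {a : Q} {a' : Q'}
    (ha : h a = a') (z : QuadraticAlgebra Q a 0) : (qmap h ha z).re = h z.re := rfl
theorem qmap_im {Q Q' : Type} [CommRing Q] [CommRing Q'] (h : Q →+* Q') {a : Q} {a' : Q'}
    (ha : h a = a') (z : QuadraticAlgebra Q a 0) : (qmap h ha z).im = h z.im := rfl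
theorem qconj_re {Q : Type} [CommRing Q] (a : Q) (z : QuadraticAlgebra Q a 0) :
    (qconj a z).re = z.re := rfl
theorem qconj_im {Q : Type} [CommRing Q] (a : Q) (z : QuadraticAlgebra Q a 0) :
    (qconj a z).im = -z.im := rfl

theorem tauS_re (α : A) (s : SA A α) : (tauS A α s).re = s.re.comp (-X) := rfl
theorem tauS_im (α : A) (s : SA A α) : (tauS A α s).im = -(s.im.comp (-X)) := rfl
theorem tau1_re (α β : A) (t : LA A α β) : (tau1 A α β t).re = t.re.map (tauS A α) := rfl
theorem tau1_im (α β : A) (t : LA A α β) : (tau1 A α β t).im = t.im.map (tauS A α) := rfl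
theorem tau2_re (α β : A) (t : LA A α β) : (tau2 A α β t).re = t.re.comp (-X) := rfl
theorem tau2_im (α β : A) (t : LA A α β) : (tau2 A α β t).im = -(t.im.comp (-X)) := rfl

theorem comp_negX_negX {R : Type} [CommRing R] (p : R[X]) : (p.comp (-X)).comp (-X) = p := by
  rw [comp_assoc]; simp

theorem tauS_tauS (α : A) (s : SA A α) : tauS A α (tauS A α s) = s := by
  ext1
  · rw [tauS_re, tauS_re, comp_negX_negX]
  · rw [tauS_im, tauS_im, neg_comp, comp_negX_negX, neg_neg]

theorem tau1_tau1 (α β : A) (t : LA A α β) : tau1 A α β (tau1 A α β t) = t := by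
  have hP : ∀ P : (SA A α)[X], (P.map (tauS A α)).map (tauS A α) = P := by
    intro P
    apply Polynomial.ext
    intro n
    simp only [coeff_map]
    exact tauS_tauS α _
  ext1
  · rw [tau1_re, tau1_re, hP]
  · rw [tau1_im, tau1_im, hP]

theorem tau2_tau2 (α β : A) (t : LA A α β) : tau2 A α β (tau2 A α β t) = t := by
  ext1
  · rw [tau2_re, tau2_re, comp_negX_negX]
  · rw [tau2_im, tau2_im, neg_comp, comp_negX_negX, neg_neg]

theorem tau1_tau2 (α β : A) (t : LA A α β) :
    tau1 A α β (tau2 A α β t) = tau2 A α β (tau1 A α β t) := by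
  ext1
  · rw [tau1_re, tau2_re, tau2_re, tau1_re, Polynomial.map_comp]; simp
  · rw [tau1_im, tau2_im, tau2_im, tau1_im, Polynomial.map_neg, Polynomial.map_comp]; simp

theorem tau1_gi (α β : A) : tau1 A α β (gi A α β) = -gi A α β := by
  ext1
  · rw [tau1_re]
    show (C _ : (SA A α)[X]).map _ = -(C _)
    rw [map_C, ← C_neg]
    congr 1
    ext1 <;> simp [tauS_re, tauS_im]
  · rw [tau1_im]; simp [gi]

theorem tau1_gv (α β : A) : tau1 A α β (gv A α β) = -gv A α β := by
  ext1
  · rw [tau1_re]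
    show (C _ : (SA A α)[X]).map _ = -(C _)
    rw [map_C, ← C_neg]
    congr 1
    ext1 <;> simp [tauS_re, tauS_im]
  · rw [tau1_im]; simp [gv]

theorem tau1_gj (α β : A) : tau1 A α β (gj A α β) = gj A α β := by
  ext1
  · rw [tau1_re]; simp [gj]
  · rw [tau1_im]; simp [gj]

theorem tau1_gw (α β : A) : tau1 A α β (gw A α β) = gw A α β := by
  ext1
  · rw [tau1_re]; simp [gw]
  · rw [tau1_im]; simp [gw]

theorem tau2_gi (α β : A) : tau2 A α β (gi A α β) = gi A α β := by
  ext1
  · rw [tau2_re]; simp [gi]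
  · rw [tau2_im]; simp [gi]

theorem tau2_gv (α β : A) : tau2 A α β (gv A α β) = gv A α β := by
  ext1
  · rw [tau2_re]; simp [gv]
  · rw [tau2_im]; simp [gv]

theorem tau2_gj (α β : A) : tau2 A α β (gj A α β) = -gj A α β := by
  ext1
  · rw [tau2_re]; simp [gj]
  · rw [tau2_im]; simp [gj]

theorem tau2_gw (α β : A) : tau2 A α β (gw A α β) = -gw A α β := by
  ext1
  · rw [tau2_re]; simp [gw]
  · rw [tau2_im]; simp [gw]

theorem omega_sq {Q : Type} [CommRing Q] (a : Q) : (⟨0, 1⟩ : QuadraticAlgebra Q a 0) ^ 2 =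
    algebraMap Q (QuadraticAlgebra Q a 0) a := by
  have h : (⟨0, 1⟩ : QuadraticAlgebra Q a 0) ^ 2 = (⟨0, 1⟩ : QuadraticAlgebra Q a 0) * ⟨0, 1⟩ :=
    sq _
  rw [h]
  ext1
  · rw [QuadraticAlgebra.re_mul]; simp
  · rw [QuadraticAlgebra.im_mul]; simp

theorem gv_sq (α β : A) : gv A α β ^ 2 = (gi A α β ^ 2 - 1) ^ 2 - algebraMap A (LA A α β) α := by
  have e1 : gv A α β = algebraMap (SA A α)[X] (LA A α β) (C ⟨0, 1⟩) := rfl
  have e2 : gi A α β = algebraMap (SA A α)[X] (LA A α β) (C (algebraMap A[X] (SA A α) X)) := rfl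
  have e3 : algebraMap A (LA A α β) α =
    algebraMap (SA A α)[X] (LA A α β) (C (algebraMap A[X] (SA A α) (C α))) := rfl
  rw [e1, e2, e3, ← map_pow, ← C_pow, omega_sq (fS A α)]
  have e4 : algebraMap (SA A α)[X] (LA A α β) (C (algebraMap A[X] (SA A α) (fS A α))) =
    algebraMap (SA A α)[X] (LA A α β) (C (algebraMap A[X] (SA A α) ((X ^ 2 - 1) ^ 2 - C α))) := rfl
  rw [e4]
  simp only [map_sub, map_pow, map_one]

theorem gw_sq (α β : A) :
    gw A α β ^ 2 = gj A α β ^ 4 + gj A α β ^ 2 + algebraMap A (LA A α β) β := by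
  have e2 : gj A α β = algebraMap (SA A α)[X] (LA A α β) X := rfl
  have e3 : algebraMap A (LA A α β) β =
    algebraMap (SA A α)[X] (LA A α β) (C (algebraMap A (SA A α) β)) := rfl
  have e4 : algebraMap (SA A α)[X] (LA A α β) (gS A α β) =
    algebraMap (SA A α)[X] (LA A α β) (X ^ 4 + X ^ 2 + C (algebraMap A (SA A α) β)) := rfl
  rw [e2, e3, gw, omega_sq (gS A α β), e4]
  simp only [map_add, map_pow]

/-! ### functoriality -/

section
variable {A' : Type} [CommRing A'] (φ : A →+* A') {α β : A} {α' β' : A'}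
  (hα : φ α = α') (hβ : φ β = β')

theorem Smap_tauS (s : SA A α) : Smap φ hα (tauS A α s) = tauS A' α' (Smap φ hα s) := by
  ext1
  · show Polynomial.map φ _ = (Polynomial.map φ _).comp (-X)
    rw [tauS_re, Polynomial.map_comp]; simp
  · show Polynomial.map φ _ = -((Polynomial.map φ _).comp (-X))
    rw [tauS_im, Polynomial.map_neg, Polynomial.map_comp]; simp

theorem Lmap_re (t : LA A α β) : (Lmap φ hα hβ t).re = t.re.map (Smap φ hα) := rfl
theorem Lmap_im (t : LA A α β) : (Lmap φ hα hβ t).im = t.im.map (Smap φ hα) := rfl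

theorem Lmap_tau1 (t : LA A α β) :
    Lmap φ hα hβ (tau1 A α β t) = tau1 A' α' β' (Lmap φ hα hβ t) := by
  have hP : ∀ P : (SA A α)[X],
      (P.map (tauS A α)).map (Smap φ hα) = (P.map (Smap φ hα)).map (tauS A' α') := by
    intro P
    apply Polynomial.ext
    intro n
    simp only [coeff_map]
    exact Smap_tauS φ hα _
  ext1
  · exact hP _
  · exact hP _

theorem Lmap_tau2 (t : LA A α β) :
    Lmap φ hα hβ (tau2 A α β t) = tau2 A' α' β' (Lmap φ hα hβ t) := by
  ext1
  · show Polynomial.map _ _ = (Polynomial.map _ _).comp (-X)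
    rw [tau2_re, Polynomial.map_comp]; simp
  · show Polynomial.map _ _ = -((Polynomial.map _ _).comp (-X))
    rw [tau2_im, Polynomial.map_neg, Polynomial.map_comp]; simp

theorem Lmap_st (t s : LA A α β) :
    Lmap φ hα hβ (st (tau1 A α β) (tau2 A α β) t s) =
      st (tau1 A' α' β') (tau2 A' α' β') (Lmap φ hα hβ t) (Lmap φ hα hβ s) := by
  simp only [st, map_neg, map_add, map_mul, map_sub, Lmap_tau1, Lmap_tau2]

theorem co_Lmap (t : LA A α β) (x : Bool × ℕ × Bool × ℕ) :
    co A' α' β' (Lmap φ hα hβ t) x = φ (co A α β t x) := by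
  obtain ⟨e, m, d, a⟩ := x
  rcases e <;> rcases d <;>
    simp only [co, cond_true, cond_false, Lmap_re, Lmap_im, coeff_map] <;>
    simp [Smap, qmap]

theorem Lmap_Ev {n : ℕ} (c : Idx n → A) :
    Lmap φ hα hβ (Ev A α β c) = Ev A' α' β' (fun x => φ (c x)) := by
  have hs : ∀ d : Bool → Fin n → A,
      Smap φ hα (sv A α d) = sv A' α' (fun δ a => φ (d δ a)) := by
    intro d
    ext1
    · show Polynomial.map φ _ = _
      simp [sv, Polynomial.map_sum]
    · show Polynomial.map φ _ = _
      simp [sv, Polynomial.map_sum]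
  ext1
  · show Polynomial.map _ _ = _
    simp only [Ev, Polynomial.map_sum, map_monomial, hs]
  · show Polynomial.map _ _ = _
    simp only [Ev, Polynomial.map_sum, map_monomial, hs]

end

/-! ### coefficients -/

theorem co_ext {α β : A} {t s : LA A α β} (h : ∀ x, co A α β t x = co A α β s x) : t = s := by
  have key : ∀ P Q : (SA A α)[X],
      (∀ m a, ((P.coeff m).re).coeff a = ((Q.coeff m).re).coeff a) →
      (∀ m a, ((P.coeff m).im).coeff a = ((Q.coeff m).im).coeff a) → P = Q := by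
    intro P Q h1 h2
    apply Polynomial.ext
    intro m
    ext1
    · apply Polynomial.ext
      intro a
      exact h1 m a
    · apply Polynomial.ext
      intro a
      exact h2 m a
  ext1
  · exact key _ _ (fun m a => h (false, m, false, a)) (fun m a => h (false, m, true, a))
  · exact key _ _ (fun m a => h (true, m, false, a)) (fun m a => h (true, m, true, a))

theorem co_zero (α β : A) (x : Bool × ℕ × Bool × ℕ) : co A α β 0 x = 0 := by
  obtain ⟨e, m, d, a⟩ := x
  rcases e <;> rcases d <;> simp [co]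

theorem co_add (α β : A) (t s : LA A α β) (x : Bool × ℕ × Bool × ℕ) :
    co A α β (t + s) x = co A α β t x + co A α β s x := by
  obtain ⟨e, m, d, a⟩ := x
  rcases e <;> rcases d <;> simp [co]

theorem co_smul (α β : A) (r : A) (t : LA A α β) (x : Bool × ℕ × Bool × ℕ) :
    co A α β (r • t) x = r * co A α β t x := by
  obtain ⟨e, m, d, a⟩ := x
  rcases e <;> rcases d <;>
    simp only [co, cond_true, cond_false, QuadraticAlgebra.re_smul, QuadraticAlgebra.im_smul,
      Polynomial.coeff_smul] <;> simp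

theorem coeff_sum_monomial {R : Type} [CommRing R] {n : ℕ} (f : Fin n → R) (m : ℕ) :
    (∑ a : Fin n, monomial (a : ℕ) (f a)).coeff m = if h : m < n then f ⟨m, h⟩ else 0 := by
  rw [finsetSum_coeff]
  simp only [coeff_monomial]
  split_ifs with h
  · rw [Finset.sum_eq_single ⟨m, h⟩]
    · simp
    · intro b _ hb
      rw [if_neg]
      intro h'
      exact hb (Fin.ext h')
    · intro h'
      exact absurd (Finset.mem_univ _) h'
  · apply Finset.sum_eq_zero
    intro b _
    rw [if_neg]
    intro h'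
    exact h (h' ▸ b.isLt)

theorem co_Ev (α β : A) {n : ℕ} (c : Idx n → A) (x : Bool × ℕ × Bool × ℕ) :
    co A α β (Ev A α β c) x =
      if h : x.2.1 < n ∧ x.2.2.2 < n then c (x.1, ⟨x.2.1, h.1⟩, x.2.2.1, ⟨x.2.2.2, h.2⟩) else 0 := by
  obtain ⟨e, m, d, a⟩ := x
  have key : ∀ f : Fin n → Bool → Fin n → A,
      ((∑ b : Fin n, monomial (b : ℕ) (sv A α (f b)) : (SA A α)[X]).coeff m).re.coeff a =
        (if h : m < n ∧ a < n then f ⟨m, h.1⟩ false ⟨a, h.2⟩ else 0) ∧
      ((∑ b : Fin n, monomial (b : ℕ) (sv A α (f b)) : (SA A α)[X]).coeff m).im.coeff a =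
        (if h : m < n ∧ a < n then f ⟨m, h.1⟩ true ⟨a, h.2⟩ else 0) := by
    intro f
    rw [coeff_sum_monomial]
    by_cases hm : m < n
    · rw [dif_pos hm]
      simp only [sv, coeff_sum_monomial]
      by_cases ha : a < n
      · simp [hm, ha]
      · simp [ha]
    · rw [dif_neg hm]
      simp [hm]
  rcases e <;> rcases d
  · exact (key fun b δ a => c (false, b, δ, a)).1
  · exact (key fun b δ a => c (false, b, δ, a)).2
  · exact (key fun b δ a => c (true, b, δ, a)).1
  · exact (key fun b δ a => c (true, b, δ, a)).2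

theorem three_LA (h3 : (3 : A) = 0) (α β : A) : (3 : LA A α β) = 0 := by
  have : (3 : LA A α β) = algebraMap A (LA A α β) 3 := (map_ofNat _ 3).symm
  rw [this, h3, map_zero]

end

end Pool.Agent.Work.MP_bcc032_al.PI
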