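import Mathlib

set_option autoImplicit false

/-! MP_bcc032_al, Q2 (PI algebras), block PI.

For a commutative ring `A` and `α β : A` let `R(α,β)` be the algebra with generators `i, v, j, w` and
relations: `i v = v i`, `j w = w j`, the two pairs anticommute with each other,
`v^2 = (i^2-1)^2 - α`, `w^2 = j^4 + j^2 + β`.
`LA A α β` is the COMMUTATIVE ring with the same generators and `i, v, j, w` commuting;
`R(α,β)` is `LA A α β` with the twisted product `st`. -/

namespace Pool.Agent.Work.MP_bcc032_al.PI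

open Polynomial

noncomputable section

/-- Functoriality of `Q[ω]`, `ω^2 = a`. -/
def qmap {Q Q' : Type} [CommRing Q] [CommRing Q'] (h : Q →+* Q') {a : Q} {a' : Q'}
    (ha : h a = a') : QuadraticAlgebra Q a 0 →+* QuadraticAlgebra Q' a' 0 where
  toFun z := ⟨h z.re, h z.im⟩
  map_one' := by ext <;> simp [QuadraticAlgebra.re_one, QuadraticAlgebra.im_one]
  map_mul' x y := by ext <;> simp [ha]
  map_zero' := by ext <;> simp
  map_add' x y := by ext <;> simp

/-- The conjugation `ω ↦ -ω`. -/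
def qconj {Q : Type} [CommRing Q] (a : Q) : QuadraticAlgebra Q a 0 →+* QuadraticAlgebra Q a 0 where
  toFun z := ⟨z.re, -z.im⟩
  map_one' := by ext <;> simp [QuadraticAlgebra.re_one, QuadraticAlgebra.im_one]
  map_mul' x y := by ext <;> simp; ring
  map_zero' := by ext <;> simp
  map_add' x y := by ext <;> simp; ring

variable (A : Type) [CommRing A]

/-- `(X^2-1)^2 - α`. -/
def fS (α : A) : A[X] := (X ^ 2 - 1) ^ 2 - C α

/-- `A[i,v]` with `v^2 = (i^2-1)^2 - α` (`i` is the variable, `v = ω`). -/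
abbrev SA (α : A) : Type := QuadraticAlgebra A[X] (fS A α) 0

/-- `X^4 + X^2 + β` as polynomial over `SA`. -/
def gS (α β : A) : (SA A α)[X] := X ^ 4 + X ^ 2 + C (algebraMap A (SA A α) β)

/-- `A[i,v,j,w]` (`j` is the outer variable, `w = ω`). -/
abbrev LA (α β : A) : Type := QuadraticAlgebra (SA A α)[X] (gS A α β) 0

/-- The involution `i ↦ -i, v ↦ -v` of `SA`. -/
def tauS (α : A) : SA A α →+* SA A α :=
  (qconj (fS A α)).comp (qmap (compRingHom (-X)) (by simp [fS]))

/-- The involution `i ↦ -i, v ↦ -v, j ↦ j, w ↦ w`. -/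
def tau1 (α β : A) : LA A α β →+* LA A α β :=
  qmap (mapRingHom (tauS A α)) (by
    have h1 : (algebraMap A (SA A α) β) = ⟨C β, 0⟩ := rfl
    have : tauS A α (algebraMap A (SA A α) β) = algebraMap A (SA A α) β := by
      rw [h1]; ext <;> simp [tauS, qconj, qmap]
    simp [gS, this])

/-- The involution `i ↦ i, v ↦ v, j ↦ -j, w ↦ -w`. -/
def tau2 (α β : A) : LA A α β →+* LA A α β :=
  (qconj (gS A α β)).comp (qmap (compRingHom (-X)) (by
    simp only [gS, coe_compRingHom, add_comp, pow_comp, X_comp, C_comp]; ring))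

/-- The twisted product (characteristic 3, `-1 = 1/2`). -/
def st {L : Type} [CommRing L] (τ₁ τ₂ : L →+* L) (t s : L) : L :=
  -((t + τ₂ t) * s + (t - τ₂ t) * τ₁ s)

/-- The four generators in `LA`. -/
def gi (α β : A) : LA A α β := ⟨C ⟨X, 0⟩, 0⟩
def gv (α β : A) : LA A α β := ⟨C ⟨0, 1⟩, 0⟩
def gj (α β : A) : LA A α β := ⟨X, 0⟩
def gw (α β : A) : LA A α β := ⟨0, 1⟩

/-- `tau1` as a linear map. -/
def tau1l (α β : A) : LA A α β →ₗ[A] LA A α β where
  toFun := tau1 A α β
  map_add' := map_add _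
  map_smul' a x := by
    have hS : ∀ s : SA A α, tauS A α (a • s) = a • tauS A α s := by
      intro s; ext <;> simp [tauS, qconj, qmap, smul_comp]
    have hP : ∀ P : (SA A α)[X], (a • P).map (tauS A α) = a • P.map (tauS A α) := by
      intro P
      apply Polynomial.ext
      intro n
      simp only [coeff_map, coeff_smul]
      exact hS _
    ext1
    · exact hP x.re
    · exact hP x.im

/-- The representation of the free algebra on `LA`. -/
def Phi (α β : A) : FreeAlgebra A (Fin 4) →ₐ[A] Module.End A (LA A α β) :=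
  FreeAlgebra.lift A ![LinearMap.mulLeft A (gi A α β), LinearMap.mulLeft A (gv A α β),
    (LinearMap.mulLeft A (gj A α β)).comp (tau1l A α β),
    (LinearMap.mulLeft A (gw A α β)).comp (tau1l A α β)]

/-- The coordinate of `p` in `LA`. -/
def cc (α β : A) (p : FreeAlgebra A (Fin 4)) : LA A α β := Phi A α β p 1

/-- The eight relations. -/
def rel (α β : A) : Fin 8 → FreeAlgebra A (Fin 4) :=
  let i := FreeAlgebra.ι A (0 : Fin 4)
  let v := FreeAlgebra.ι A (1 : Fin 4)
  let j := FreeAlgebra.ι A (2 : Fin 4)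
  let w := FreeAlgebra.ι A (3 : Fin 4)
  ![i * v - v * i, j * w - w * j, i * j + j * i, i * w + w * i, v * j + j * v, v * w + w * v,
    v ^ 2 - ((i ^ 2 - 1) ^ 2 - algebraMap A _ α), w ^ 2 - (j ^ 4 + j ^ 2 + algebraMap A _ β)]

/-- Span of the words of length `< N`. -/
def lowdeg (d N : ℕ) : Submodule A (FreeAlgebra A (Fin d)) :=
  Submodule.span A {a : FreeAlgebra A (Fin d) | ∃ w : FreeMonoid (Fin d),
    w.length < N ∧ a = (w.toList.map (FreeAlgebra.ι A)).prod}

/-- The Hall polynomial `[[y0,y1]^2,y2]`. -/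
def hall : FreeAlgebra A (Fin 3) :=
  let x := FreeAlgebra.ι A (0 : Fin 3)
  let y := FreeAlgebra.ι A (1 : Fin 3)
  let z := FreeAlgebra.ι A (2 : Fin 3)
  (x * y - y * x) ^ 2 * z - z * (x * y - y * x) ^ 2

/-- Index set of a box of monomials `j^m w^ε i^a v^δ`. -/
abbrev Idx (n : ℕ) : Type := Bool × Fin n × Bool × Fin n

/-- An element of `SA` with given coefficients. -/
def sv (α : A) {n : ℕ} (d : Bool → Fin n → A) : SA A α :=
  ⟨∑ a : Fin n, monomial (a : ℕ) (d false a), ∑ a : Fin n, monomial (a : ℕ) (d true a)⟩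

/-- An element of `LA` with given coefficients. -/
def Ev (α β : A) {n : ℕ} (c : Idx n → A) : LA A α β :=
  ⟨∑ m : Fin n, monomial (m : ℕ) (sv A α fun δ a => c (false, m, δ, a)),
   ∑ m : Fin n, monomial (m : ℕ) (sv A α fun δ a => c (true, m, δ, a))⟩

/-- All coefficients of an element of `LA`. -/
def co (α β : A) (t : LA A α β) (x : Bool × ℕ × Bool × ℕ) : A :=
  (cond x.2.2.1 ((cond x.1 t.im t.re).coeff x.2.1).im
    ((cond x.1 t.im t.re).coeff x.2.1).re).coeff x.2.2.2

/-- The ring hom `SA A α → SA A' α'` induced by `φ : A → A'`. -/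
def Smap {A : Type} [CommRing A] {A' : Type} [CommRing A'] (φ : A →+* A') {α : A} {α' : A'}
    (hα : φ α = α') : SA A α →+* SA A' α' :=
  qmap (mapRingHom φ) (by simp [fS, hα])

/-- The ring hom `LA A α β → LA A' α' β'` induced by `φ : A → A'`. -/
def Lmap {A : Type} [CommRing A] {A' : Type} [CommRing A'] (φ : A →+* A') {α β : A} {α' β' : A'}
    (hα : φ α = α') (hβ : φ β = β') : LA A α β →+* LA A' α' β' :=
  qmap (mapRingHom (Smap φ hα)) (by
    have h1 : Smap φ hα (algebraMap A (SA A α) β) = algebraMap A' (SA A' α') β' := by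
      have e1 : (algebraMap A (SA A α) β) = ⟨C β, 0⟩ := rfl
      have e2 : (algebraMap A' (SA A' α') β') = ⟨C β', 0⟩ := rfl
      rw [e1, e2]
      ext1
      · simp [Smap, qmap, hβ]
      · simp [Smap, qmap]
    simp [gS, h1])

end

end Pool.Agent.Work.MP_bcc032_al.PI
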