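import Pool.Agent.Work.MP_bcc032_al.PI.Stmts

set_option autoImplicit false

namespace Pool.Agent.Work.MP_bcc032_al.PI

open Polynomial

namespace AuxDvTr

theorem mk_zero_iff {A : Type} [CommRing A] (δ a : A) :
    Ideal.Quotient.mk (Ideal.span {δ}) a = 0 ↔ δ ∣ a := by
  rw [Ideal.Quotient.eq_zero_iff_mem, Ideal.mem_span_singleton]

theorem Lmap_prod {A : Type} [CommRing A] {A' : Type} [CommRing A'] (φ : A →+* A') (α β : A)
    {β' : A'} (hβ : φ β = β') (n : ℕ) (c c' : Idx n → A) :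
    Lmap φ (rfl : φ α = φ α) hβ (st (tau1 A α β) (tau2 A α β) (Ev A α β c) (Ev A α β c')) =
      st (tau1 A' (φ α) β') (tau2 A' (φ α) β') (Ev A' (φ α) β' (fun x => φ (c x)))
        (Ev A' (φ α) β' (fun x => φ (c' x))) := by
  rw [Lmap_st, Lmap_Ev, Lmap_Ev]

end AuxDvTr

theorem pr_Dv : S_Dv := by
  intro A _ α β δ hδ n c c' h x
  let φ : A →+* A ⧸ Ideal.span {δ} := Ideal.Quotient.mk (Ideal.span {δ})
  have hβ : φ β = 0 := (AuxDvTr.mk_zero_iff δ β).2 hδ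
  have h1 := AuxDvTr.Lmap_prod φ α β hβ n c c'
  rw [h, map_zero] at h1
  have h2 := AuxDvTr.Lmap_prod φ α 0 (map_zero φ) n c c'
  rw [← h1] at h2
  have h3 := co_Lmap φ (rfl : φ α = φ α) (map_zero φ)
    (st (tau1 A α 0) (tau2 A α 0) (Ev A α 0 c) (Ev A α 0 c')) x
  rw [h2, co_zero] at h3
  exact (AuxDvTr.mk_zero_iff δ _).1 h3.symm

theorem pr_Tr : S_Tr := by
  intro A _ α δ n c c' d d' hc hc' h x
  let φ : A →+* A ⧸ Ideal.span {δ} := Ideal.Quotient.mk (Ideal.span {δ})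
  have e1 : (fun x => φ (c x)) = fun x => φ (d x) := by
    funext x
    have := (AuxDvTr.mk_zero_iff δ _).2 (hc x)
    rw [map_sub] at this
    exact sub_eq_zero.1 this
  have e2 : (fun x => φ (c' x)) = fun x => φ (d' x) := by
    funext x
    have := (AuxDvTr.mk_zero_iff δ _).2 (hc' x)
    rw [map_sub] at this
    exact sub_eq_zero.1 this
  have h1 := AuxDvTr.Lmap_prod φ α 0 (map_zero φ) n c c'
  have h2 := AuxDvTr.Lmap_prod φ α 0 (map_zero φ) n d d'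
  rw [e1, e2, ← h2] at h1
  have h3 := co_Lmap φ (rfl : φ α = φ α) (map_zero φ)
    (st (tau1 A α 0) (tau2 A α 0) (Ev A α 0 c) (Ev A α 0 c')) x
  have h4 := co_Lmap φ (rfl : φ α = φ α) (map_zero φ)
    (st (tau1 A α 0) (tau2 A α 0) (Ev A α 0 d) (Ev A α 0 d')) x
  rw [h1, h4] at h3
  have h5 := (AuxDvTr.mk_zero_iff δ _).2 (h x)
  exact (AuxDvTr.mk_zero_iff δ _).1 (h3.trans h5)

end Pool.Agent.Work.MP_bcc032_al.PI
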