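import Pool.Agent.Work.MP_bcc032_al.PI.Stmts

set_option autoImplicit false

namespace Pool.Agent.Work.MP_bcc032_al.PI

open Polynomial

noncomputable section

instance fact3 : Fact (Nat.Prime 3) := ⟨Nat.prime_three⟩

abbrev OO : Type := PowerSeries (ZMod 3)
abbrev KK : Type := FractionRing OO

theorem three_OO : (3 : OO) = 0 := by
  have h : (3 : ZMod 3) = 0 := by decide
  have : (3 : OO) = PowerSeries.C (3 : ZMod 3) := (map_ofNat (PowerSeries.C (R := ZMod 3)) 3).symm
  rw [this, h, map_zero]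

theorem three_KK : (3 : KK) = 0 := by
  have : (3 : KK) = algebraMap OO KK 3 := (map_ofNat (algebraMap OO KK) 3).symm
  rw [this, three_OO, map_zero]

theorem two_ne {R : Type} [CommRing R] [Nontrivial R] (h3 : (3 : R) = 0) : (2 : R) ≠ 0 := by
  intro h2
  have : (1 : R) = 3 - 2 := by norm_num
  rw [h3, h2, sub_zero] at this
  exact one_ne_zero this

/-- `(LA, st)` is a domain for `β = 0`. -/
theorem dom (h1 : S_SDom) (h2 : S_Tp) (h3 : S_Kap) (A : Type) [CommRing A] [IsDomain A]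
    [UniqueFactorizationMonoid A] (h : (3 : A) = 0) (α : A) (hα : α ≠ 0) (t s : LA A α 0)
    (hts : st (tau1 A α 0) (tau2 A α 0) t s = 0) : t = 0 ∨ s = 0 := by
  obtain ⟨κ, hinj, hk1, hk2⟩ := h3 A α
  haveI : NoZeroDivisors (SA A α) :=
    ⟨fun {a b} hab => h1 A (two_ne h) α hα a b hab⟩
  haveI : IsDomain (SA A α) := NoZeroDivisors.to_isDomain _
  have h3S : (3 : SA A α) = 0 := by
    have : (3 : SA A α) = algebraMap A (SA A α) 3 := (map_ofNat _ 3).symm
    rw [this, h, map_zero]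
  have hst : st (tp1 (tauS A α)) (tp2 (SA A α)) (κ t) (κ s) = 0 := by
    have : κ (st (tau1 A α 0) (tau2 A α 0) t s) = st (tp1 (tauS A α)) (tp2 (SA A α)) (κ t) (κ s) := by
      simp only [st, map_neg, map_add, map_mul, map_sub, hk1, hk2]
    rw [← this, hts, map_zero]
  rcases h2 (SA A α) (tauS A α) (tauS_tauS α) h3S _ _ hst with h | h
  · left; exact hinj (by rw [h, map_zero])
  · right; exact hinj (by rw [h, map_zero])

theorem Ev_smul {A : Type} [CommRing A] (α β : A) {n : ℕ} (l : A) (c : Idx n → A) :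
    Ev A α β (fun x => l * c x) = l • Ev A α β c := by
  apply co_ext
  intro x
  rw [co_smul, co_Ev, co_Ev]
  split_ifs <;> simp

theorem st_smul {A : Type} [CommRing A] (α β : A) (l l' : A) (t s : LA A α β) :
    st (tau1 A α β) (tau2 A α β) (l • t) (l' • s) =
      (l * l') • st (tau1 A α β) (tau2 A α β) t s := by
  have e1 : ∀ (l : A) (t : LA A α β), tau1 A α β (l • t) = l • tau1 A α β t :=
    fun l t => (tau1l A α β).map_smul l t
  have e2 : ∀ (l : A) (t : LA A α β), tau2 A α β (l • t) = l • tau2 A α β t := by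
    intro l t
    have : l • t = algebraMap A (LA A α β) l * t := Algebra.smul_def _ _
    have h' : l • tau2 A α β t = algebraMap A (LA A α β) l * tau2 A α β t := Algebra.smul_def _ _
    rw [this, h', map_mul]
    congr 1
    have e3 : algebraMap A (LA A α β) l =
      algebraMap (SA A α)[X] (LA A α β) (C (algebraMap A (SA A α) l)) := rfl
    rw [e3]
    ext1
    · rw [tau2_re]; simp
    · rw [tau2_im]; simp
  simp only [st, e1, e2]
  simp only [Algebra.smul_def, map_mul]
  ring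

theorem Ev_zero_of {A : Type} [CommRing A] {α β : A} {n : ℕ} {c : Idx n → A}
    (h : Ev A α β c = 0) : c = 0 := by
  funext x
  obtain ⟨e, m, d, a⟩ := x
  have := co_Ev α β c (e, (m : ℕ), d, (a : ℕ))
  rw [h, co_zero, dif_pos ⟨m.isLt, a.isLt⟩] at this
  exact this.symm

theorem Lmap_inj {A : Type} [CommRing A] {A' : Type} [CommRing A'] (φ : A →+* A')
    (hφ : Function.Injective φ) {α β : A} {α' β' : A'} (hα : φ α = α') (hβ : φ β = β')
    (t : LA A α β) (h : Lmap φ hα hβ t = 0) : t = 0 := by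
  apply co_ext
  intro x
  apply hφ
  rw [← co_Lmap φ hα hβ, h, co_zero, co_zero, map_zero]

/-- The core: for every `N` there is `r` such that `R(X, X^(3^r))` has no zero divisors of low
degree. -/
theorem core (hKer : S_Ker) (hAct : S_Act) (hNf : S_Nf) (hBox : S_Box) (hSc : S_Sc)
    (hKon : S_Kon) (hDv : S_Dv) (hTr : S_Tr) (h1 : S_SDom) (h2 : S_Tp) (h3 : S_Kap) (N : ℕ) :
    ∃ r : ℕ, ∀ p q : FreeAlgebra KK (Fin 4), p ∈ lowdeg KK 4 N → q ∈ lowdeg KK 4 N →
      p * q ∈ TwoSidedIdeal.span (Set.range (rel KK (algebraMap OO KK PowerSeries.X)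
        ((algebraMap OO KK PowerSeries.X) ^ 3 ^ r))) →
      p ∈ TwoSidedIdeal.span (Set.range (rel KK (algebraMap OO KK PowerSeries.X)
        ((algebraMap OO KK PowerSeries.X) ^ 3 ^ r))) ∨
      q ∈ TwoSidedIdeal.span (Set.range (rel KK (algebraMap OO KK PowerSeries.X)
        ((algebraMap OO KK PowerSeries.X) ^ 3 ^ r))) := by
  classical
  by_contra hcon
  push Not at hcon
  set n := 4 * N + 1 with hn
  set α : OO := PowerSeries.X with hα
  -- step 1: primitive integral vectors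
  have step1 : ∀ r : ℕ, ∃ d d' : Idx n → OO, (∃ x, PowerSeries.constantCoeff (d x) ≠ 0) ∧
      (∃ x, PowerSeries.constantCoeff (d' x) ≠ 0) ∧
      st (tau1 OO α (α ^ 3 ^ r)) (tau2 OO α (α ^ 3 ^ r)) (Ev OO α (α ^ 3 ^ r) d)
        (Ev OO α (α ^ 3 ^ r) d') = 0 := by
    intro r
    obtain ⟨p, q, hp, hq, hpq, hp0, hq0⟩ := hcon r
    set a : KK := algebraMap OO KK α with ha
    set b : KK := a ^ 3 ^ r with hb
    obtain ⟨c, hc⟩ := hBox KK a b N p hp
    obtain ⟨c', hc'⟩ := hBox KK a b N q hq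
    have hcn : c ≠ 0 := by
      intro h0
      apply hp0
      apply hNf
      rw [← hc, h0]
      apply co_ext
      intro x
      rw [co_Ev, co_zero]
      split_ifs <;> rfl
    have hcn' : c' ≠ 0 := by
      intro h0
      apply hq0
      apply hNf
      rw [← hc', h0]
      apply co_ext
      intro x
      rw [co_Ev, co_zero]
      split_ifs <;> rfl
    have hst : st (tau1 KK a b) (tau2 KK a b) (Ev KK a b c) (Ev KK a b c') = 0 := by
      rw [hc, hc', ← hAct KK three_KK]
      have := hKer KK a b (p * q) hpq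
      rw [map_mul] at this
      have h2 := congrArg (fun F : Module.End KK (LA KK a b) => F 1) this
      exact h2
    obtain ⟨l, d, hl, hld, hd⟩ := hSc (Idx n) c hcn
    obtain ⟨l', d', hl', hld', hd'⟩ := hSc (Idx n) c' hcn'
    refine ⟨d, d', hd, hd', ?_⟩
    have hβ : algebraMap OO KK (α ^ 3 ^ r) = b := by rw [map_pow]
    apply Lmap_inj (algebraMap OO KK) (IsFractionRing.injective OO KK) (rfl : _ = a) hβ
    rw [Lmap_st, Lmap_Ev, Lmap_Ev]
    have e1 : (fun x => algebraMap OO KK (d x)) = fun x => l * c x := by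
      funext x; rw [hld]
    have e2 : (fun x => algebraMap OO KK (d' x)) = fun x => l' * c' x := by
      funext x; rw [hld']
    rw [e1, e2, Ev_smul, Ev_smul, st_smul, hst, smul_zero]
  -- step 2: compactness
  let PS : (Idx n ⊕ Idx n → ℕ → ZMod 3) → Idx n → OO := fun f x => PowerSeries.mk (f (Sum.inl x))
  let PS' : (Idx n ⊕ Idx n → ℕ → ZMod 3) → Idx n → OO := fun f x => PowerSeries.mk (f (Sum.inr x))
  let F : ℕ → Set (Idx n ⊕ Idx n → ℕ → ZMod 3) := fun L =>
    {f | (∃ x, f (Sum.inl x) 0 ≠ 0) ∧ (∃ x, f (Sum.inr x) 0 ≠ 0) ∧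
      ∀ x, (PowerSeries.X : OO) ^ (L + 1) ∣
        co OO α 0 (st (tau1 OO α 0) (tau2 OO α 0) (Ev OO α 0 (PS f)) (Ev OO α 0 (PS' f))) x}
  obtain ⟨f, hf⟩ := hKon (Idx n ⊕ Idx n) F
    (by
      rintro L f ⟨h1, h2, h3⟩
      exact ⟨h1, h2, fun x => (pow_dvd_pow _ (Nat.le_succ _)).trans (h3 x)⟩)
    (by
      intro L
      obtain ⟨d, d', ⟨x, hx⟩, ⟨x', hx'⟩, hst⟩ := step1 (L + 1)
      refine ⟨Sum.elim (fun x m => PowerSeries.coeff m (d x))
        (fun x m => PowerSeries.coeff m (d' x)), ⟨x, ?_⟩, ⟨x', ?_⟩, ?_⟩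
      · simpa using hx
      · simpa using hx'
      · have hPS : PS (Sum.elim (fun x m => PowerSeries.coeff m (d x))
            (fun x m => PowerSeries.coeff m (d' x))) = d := by
          funext x
          ext m
          simp [PS]
        have hPS' : PS' (Sum.elim (fun x m => PowerSeries.coeff m (d x))
            (fun x m => PowerSeries.coeff m (d' x))) = d' := by
          funext x
          ext m
          simp [PS']
        rw [hPS, hPS']
        apply hDv OO α (α ^ 3 ^ (L + 1)) _ _ n d d' hst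
        apply pow_dvd_pow
        exact (Nat.lt_pow_self (by norm_num)).le)
    (by
      rintro L f g ⟨⟨x, hx⟩, ⟨x', hx'⟩, h⟩ hfg
      refine ⟨⟨x, ?_⟩, ⟨x', ?_⟩, ?_⟩
      · rw [← hfg _ 0 (Nat.zero_le _)]; exact hx
      · rw [← hfg _ 0 (Nat.zero_le _)]; exact hx'
      · apply hTr OO α _ n (PS f) (PS' f) (PS g) (PS' g) _ _ h
        · intro x
          rw [PowerSeries.X_pow_dvd_iff]
          intro m hm
          simp only [PS, map_sub, PowerSeries.coeff_mk]
          rw [hfg _ m (Nat.lt_succ_iff.mp hm), sub_self]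
        · intro x
          rw [PowerSeries.X_pow_dvd_iff]
          intro m hm
          simp only [PS', map_sub, PowerSeries.coeff_mk]
          rw [hfg _ m (Nat.lt_succ_iff.mp hm), sub_self])
  have hzero : st (tau1 OO α 0) (tau2 OO α 0) (Ev OO α 0 (PS f)) (Ev OO α 0 (PS' f)) = 0 := by
    apply co_ext
    intro x
    rw [co_zero]
    ext m
    have := (hf m).2.2 x
    rw [PowerSeries.X_pow_dvd_iff] at this
    rw [this m (Nat.lt_succ_self m), map_zero]
  have hα0 : α ≠ 0 := PowerSeries.X_ne_zero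
  rcases dom h1 h2 h3 OO three_OO α hα0 _ _ hzero with h | h
  · obtain ⟨x, hx⟩ := (hf 0).1
    have := congrFun (Ev_zero_of h) x
    apply hx
    have h2 := congrArg (PowerSeries.coeff 0) this
    simpa [PS] using h2
  · obtain ⟨x, hx⟩ := (hf 0).2.1
    have := congrFun (Ev_zero_of h) x
    apply hx
    have h2 := congrArg (PowerSeries.coeff 0) this
    simpa [PS'] using h2

/-- All hypotheses together. -/
theorem final (hKer : S_Ker) (hAct : S_Act) (hNf : S_Nf) (hHall : S_Hall) (hHNe : S_HNe)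
    (hZd : S_Zd) (hBox : S_Box) (hDeg : S_Deg) (hSc : S_Sc)
    (hKon : S_Kon) (hDv : S_Dv) (hTr : S_Tr) (h1 : S_SDom) (h2 : S_Tp) (h3 : S_Kap) :
    ∃ (k : Type) (_ : Field k) (f : FreeAlgebra k (Fin 3)), f ≠ 0 ∧
      ∀ N : ℕ, ∃ r : Fin 8 → FreeAlgebra k (Fin 4),
        (∀ x, r x ∈ lowdeg k 4 5) ∧
        (∀ a : Fin 3 → FreeAlgebra k (Fin 4),
          FreeAlgebra.lift k a f ∈ TwoSidedIdeal.span (Set.range r)) ∧
        (∃ p q : FreeAlgebra k (Fin 4), p ∉ TwoSidedIdeal.span (Set.range r) ∧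
          q ∉ TwoSidedIdeal.span (Set.range r) ∧ p * q ∈ TwoSidedIdeal.span (Set.range r)) ∧
        ∀ p q : FreeAlgebra k (Fin 4), p ∈ lowdeg k 4 N → q ∈ lowdeg k 4 N →
          p * q ∈ TwoSidedIdeal.span (Set.range r) →
          p ∈ TwoSidedIdeal.span (Set.range r) ∨ q ∈ TwoSidedIdeal.span (Set.range r) := by
  refine ⟨KK, inferInstance, hall KK, hHNe KK, fun N => ?_⟩
  obtain ⟨r, hr⟩ := core hKer hAct hNf hBox hSc hKon hDv hTr h1 h2 h3 N
  refine ⟨rel KK (algebraMap OO KK PowerSeries.X) ((algebraMap OO KK PowerSeries.X) ^ 3 ^ r),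
    fun x => hDeg _ _ _ _, fun a => ?_, ?_, hr⟩
  · apply hNf
    show Phi KK _ _ _ 1 = 0
    rw [hHall KK three_KK]
    rfl
  · obtain ⟨p, q, hp, hq, hpq⟩ := hZd KK three_KK (algebraMap OO KK PowerSeries.X) r
    refine ⟨p, q, fun h => hp ?_, fun h => hq ?_, hNf _ _ _ _ ?_⟩
    · show Phi KK _ _ p 1 = 0
      rw [hKer KK _ _ p h]; rfl
    · show Phi KK _ _ q 1 = 0
      rw [hKer KK _ _ q h]; rfl
    · show Phi KK _ _ (p * q) 1 = 0
      rw [map_mul]
      show Phi KK _ _ p (cc KK _ _ q) = 0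
      rw [hAct KK three_KK]
      exact hpq

end

end Pool.Agent.Work.MP_bcc032_al.PI
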