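import Pool.Agent.Work.MP_bcc032_al.PI.Basic

set_option autoImplicit false

/-! Statements of block PI (MP_bcc032_al, Q2). -/

namespace Pool.Agent.Work.MP_bcc032_al.PI

open Polynomial

noncomputable section

/-- `S[U][ω]`, `ω^2 = U^2 - 1`. -/
abbrev Tp (S : Type) [CommRing S] : Type := QuadraticAlgebra S[X] (X ^ 2 - 1) 0

/-- `τ` on the coefficients. -/
def tp1 {S : Type} [CommRing S] (τ : S →+* S) : Tp S →+* Tp S := qmap (mapRingHom τ) (by simp)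

/-- `ω ↦ -ω`. -/
def tp2 (S : Type) [CommRing S] : Tp S →+* Tp S := qconj _

/-- The ideal of relations acts by zero. -/
def S_Ker : Prop := ∀ (A : Type) [CommRing A] (α β : A) (p : FreeAlgebra A (Fin 4)),
  p ∈ TwoSidedIdeal.span (Set.range (rel A α β)) → Phi A α β p = 0

/-- Every operator is a twisted multiplication. -/
def S_Act : Prop := ∀ (A : Type) [CommRing A], (3 : A) = 0 → ∀ (α β : A)
  (p : FreeAlgebra A (Fin 4)) (s : LA A α β),
  Phi A α β p s = st (tau1 A α β) (tau2 A α β) (cc A α β p) s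

/-- Normal form. -/
def S_Nf : Prop := ∀ (A : Type) [CommRing A] (α β : A) (p : FreeAlgebra A (Fin 4)),
  cc A α β p = 0 → p ∈ TwoSidedIdeal.span (Set.range (rel A α β))

/-- Hall identity. -/
def S_Hall : Prop := ∀ (A : Type) [CommRing A], (3 : A) = 0 → ∀ (α β : A)
  (a : Fin 3 → FreeAlgebra A (Fin 4)), Phi A α β (FreeAlgebra.lift A a (hall A)) = 0

/-- The Hall polynomial is not zero. -/
def S_HNe : Prop := ∀ (k : Type) [Field k], hall k ≠ 0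

/-- Zero divisors for `β = α^(3^r)`. -/
def S_Zd : Prop := ∀ (A : Type) [CommRing A] [Nontrivial A], (3 : A) = 0 → ∀ (α : A) (r : ℕ),
  ∃ p q : FreeAlgebra A (Fin 4), cc A α (α ^ 3 ^ r) p ≠ 0 ∧ cc A α (α ^ 3 ^ r) q ≠ 0 ∧
    st (tau1 A α (α ^ 3 ^ r)) (tau2 A α (α ^ 3 ^ r)) (cc A α (α ^ 3 ^ r) p)
      (cc A α (α ^ 3 ^ r) q) = 0

/-- Elements of low degree have coordinates in a box. -/
def S_Box : Prop := ∀ (A : Type) [CommRing A] (α β : A) (N : ℕ) (p : FreeAlgebra A (Fin 4)),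
  p ∈ lowdeg A 4 N → ∃ c : Idx (4 * N + 1) → A, Ev A α β c = cc A α β p

/-- Degrees of the relations. -/
def S_Deg : Prop := ∀ (A : Type) [CommRing A] (α β : A) (x : Fin 8), rel A α β x ∈ lowdeg A 4 5

/-- Scaling to a primitive vector. -/
def S_Sc : Prop := ∀ (J : Type) [Fintype J] (c : J → FractionRing (PowerSeries (ZMod 3))), c ≠ 0 →
  ∃ (l : FractionRing (PowerSeries (ZMod 3))) (d : J → PowerSeries (ZMod 3)), l ≠ 0 ∧
    (∀ x, l * c x = algebraMap _ _ (d x)) ∧ ∃ x, PowerSeries.constantCoeff (d x) ≠ 0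

/-- Compactness. -/
def S_Kon : Prop := ∀ (J : Type) [Fintype J] (F : ℕ → Set (J → ℕ → ZMod 3)),
  (∀ L, F (L + 1) ⊆ F L) → (∀ L, (F L).Nonempty) →
  (∀ L x y, x ∈ F L → (∀ j n, n ≤ L → x j n = y j n) → y ∈ F L) → ∃ x, ∀ L, x ∈ F L

/-- From `β` to `0` modulo a divisor of `β`. -/
def S_Dv : Prop := ∀ (A : Type) [CommRing A] (α β δ : A), δ ∣ β → ∀ (n : ℕ) (c c' : Idx n → A),
  st (tau1 A α β) (tau2 A α β) (Ev A α β c) (Ev A α β c') = 0 →
  ∀ x, δ ∣ co A α 0 (st (tau1 A α 0) (tau2 A α 0) (Ev A α 0 c) (Ev A α 0 c')) x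

/-- Divisibility of the product depends only on the coefficients modulo `δ`. -/
def S_Tr : Prop := ∀ (A : Type) [CommRing A] (α δ : A) (n : ℕ) (c c' d d' : Idx n → A),
  (∀ x, δ ∣ c x - d x) → (∀ x, δ ∣ c' x - d' x) →
  (∀ x, δ ∣ co A α 0 (st (tau1 A α 0) (tau2 A α 0) (Ev A α 0 c) (Ev A α 0 c')) x) →
  ∀ x, δ ∣ co A α 0 (st (tau1 A α 0) (tau2 A α 0) (Ev A α 0 d) (Ev A α 0 d')) x

/-- Parity of the order at `U = 1`. -/
def S_Par : Prop := ∀ (S : Type) [CommRing S] [IsDomain S] (τ : S →+* S),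
  Function.Injective τ → (2 : S) ≠ 0 → ∀ a b : S[X],
  a * a.map τ = (X ^ 2 - 1) * (b * b.map τ) → a = 0 ∧ b = 0

/-- `A[i,v]` is a domain. -/
def S_SDom : Prop := ∀ (A : Type) [CommRing A] [IsDomain A] [UniqueFactorizationMonoid A],
  (2 : A) ≠ 0 → ∀ α : A, α ≠ 0 → ∀ s s' : SA A α, s * s' = 0 → s = 0 ∨ s' = 0

/-- The twisted `Tp` is a domain. -/
def S_Tp : Prop := ∀ (S : Type) [CommRing S] [IsDomain S] (τ : S →+* S), (∀ x, τ (τ x) = x) →
  (3 : S) = 0 → ∀ t s : Tp S, st (tp1 τ) (tp2 S) t s = 0 → t = 0 ∨ s = 0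

/-- The embedding for `β = 0`: `j ↦ ω`, `w ↦ ω U`. -/
def S_Kap : Prop := ∀ (A : Type) [CommRing A] (α : A), ∃ κ : LA A α 0 →+* Tp (SA A α),
  Function.Injective κ ∧ (∀ t, κ (tau1 A α 0 t) = tp1 (tauS A α) (κ t)) ∧
  (∀ t, κ (tau2 A α 0 t) = tp2 (SA A α) (κ t))

end

end Pool.Agent.Work.MP_bcc032_al.PI
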